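import Pool.Agent.H74.FEK.Grd

/-!
# Tuples of tuples of one line

`tup_nest`: tuples (independent given the line) of tuples of samples of one line are tuples of
samples of the line. `cov_line`: the covector of a line from `(r + 1) (J + 1)` samples of the line
whose defects do not span.
-/

set_option autoImplicit false

namespace Pool.FEK74

open Finset Matrix
open Pool.Agent.H49.Ent Pool.Agent.H32.Dense Pool.STK Pool.SLO
open Pool.BFL (Pb)

variable {Ω Λ : Type} [Fintype Ω] {p : Ω → ℝ}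

theorem law_tup (hp : IsLaw p) (L : Ω → Λ) (r : ℕ) (z : Λ) :
    law (tup p L r) (fun u => L (u 0)) z = law p L z :=
  tup_law hp.1 L r z

/-- The conditional law of a tuple. -/
theorem cond_tup (hp : IsLaw p) (L : Ω → Λ) (r : ℕ) (z : Λ) (u : Fin (r + 1) → Ω) :
    cond (tup p L r) (fun u => L (u 0)) z u = ∏ i, cond p L z (u i) := by
  classical
  unfold Pool.Agent.H49.Ent.cond
  rw [law_tup hp]
  by_cases h0 : L (u 0) = z
  · rw [if_pos h0]
    unfold tup
    have e1 : ∀ j : Fin r, Pool.Agent.H49.Ent.cond p L (L (u 0)) (u j.succ) =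
        Pool.Agent.H49.Ent.cond p L z (u j.succ) := fun j => by rw [h0]
    rw [Finset.prod_congr rfl fun j _ => e1 j, Fin.prod_univ_succ, if_pos h0]
    unfold Pool.Agent.H49.Ent.cond
    ring
  · rw [if_neg h0, Fin.prod_univ_succ, if_neg h0, zero_mul]

/-- **Tuples of tuples.** -/
theorem tup_nest (hp : IsLaw p) (L : Ω → Λ) {r J N : ℕ} (e : Fin (J + 1) × Fin (r + 1) ≃ Fin (N + 1))
    (E : (Fin (J + 1) → Fin (r + 1) → Ω) → Prop) :
    Pb (tup (tup p L r) (fun u => L (u 0)) J) E =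
      Pb (tup p L N) (fun v => E fun j i => v (e (j, i))) := by
  classical
  have hq := tup_isLaw hp L r
  unfold Pb
  have h1 : ∀ v : Fin (J + 1) → Fin (r + 1) → Ω, tup (tup p L r) (fun u => L (u 0)) J v =
      ∑ z ∈ Finset.univ.image L, law p L z * ∏ j, ∏ i, cond p L z (v j i) := by
    intro v
    rw [tup_mix hq.1 (fun u : Fin (r + 1) → Ω => L (u 0)) J v]
    have h3 : (Finset.univ.image fun u : Fin (r + 1) → Ω => L (u 0)) = Finset.univ.image L := by
      ext z
      simp only [Finset.mem_image, Finset.mem_univ, true_and]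
      constructor
      · rintro ⟨u, hu⟩
        exact ⟨u 0, hu⟩
      · rintro ⟨ω, hω⟩
        exact ⟨fun _ => ω, hω⟩
    rw [h3]
    refine Finset.sum_congr rfl fun z _ => ?_
    rw [law_tup hp]
    congr 1
    exact Finset.prod_congr rfl fun j _ => cond_tup hp L r z (v j)
  let φ : (Fin (N + 1) → Ω) ≃ (Fin (J + 1) → Fin (r + 1) → Ω) :=
    (Equiv.arrowCongr e.symm (Equiv.refl Ω)).trans (Equiv.curry _ _ _)
  have hφ : ∀ v, φ v = fun j i => v (e (j, i)) := fun v => rfl
  rw [← Fintype.sum_equiv φ (fun v => if E (fun j i => v (e (j, i))) then tup p L N v else 0)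
    (fun v => if E v then tup (tup p L r) (fun u => L (u 0)) J v else 0) fun v => ?_]
  rw [hφ v]
  have h4 : tup p L N v = tup (tup p L r) (fun u => L (u 0)) J (fun j i => v (e (j, i))) := by
    rw [h1, tup_mix hp.1 L N v]
    refine Finset.sum_congr rfl fun z _ => ?_
    congr 1
    rw [← Fintype.prod_prod_type']
    exact (Fintype.prod_equiv e (fun x => cond p L z (v (e (x.1, x.2))))
      (fun j => cond p L z (v j)) fun x => rfl).symm
  rw [h4]

/-- **The covector of a line**: if the defects `D` of the `(r + 1)`-tuples among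
`N + 1 = (r + 1) (J + 1)` samples of the line together with `B₀` contain only with probability
`≤ ε` a basis of determinant `≥ δ ^ c`, a covector of the line kills (up to `δ`) the defects of
most of the `(r + 1)`-tuples. -/
theorem cov_line (hp : IsLaw p) (L : Ω → Λ) (r c : ℕ) (D : (Fin (r + 1) → Ω) → Fin c → ℝ)
    (B₀ : Set (Fin c → ℝ)) (δ ε' ε : ℝ) (J N : ℕ) (hN : (J + 1) * (r + 1) = N + 1) (hδ : 0 < δ)
    (hε0 : 0 < ε') (hε1 : ε' ≤ 1) (hJ : 2 * (c : ℝ) ≤ ε' * (J + 1)) (hε : ε < 1 / 2)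
    (h : Pb (tup p L N) (fun v => ∃ a : Fin c → Fin c → ℝ,
      (∀ j, a j ∈ B₀ ∨ ∃ σ : Fin (r + 1) → Fin (N + 1), Function.Injective σ ∧
        a j = D (v ∘ σ)) ∧ δ ^ c ≤ |(Matrix.of a).det|) ≤ ε) :
    ∃ n : Λ → Fin c → ℝ, (∀ z, ‖n z‖ = 1 ∧ ∀ b ∈ B₀, |n z ⬝ᵥ b| < δ) ∧
      Pb (tup p L r) (fun u => δ ≤ |n (L (u 0)) ⬝ᵥ D u|) ≤ ε' + 2 * ε := by
  classical
  refine cov_of_span (tup_isLaw hp L r) (fun u => L (u 0)) D B₀ δ ε' ε J hδ hε0 hε1 hJ hε
    (le_trans ?_ h)
  let e : Fin (J + 1) × Fin (r + 1) ≃ Fin (N + 1) := finProdFinEquiv.trans (finCongr hN)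
  rw [tup_nest hp L e]
  unfold Pb
  refine Finset.sum_le_sum fun v _ => ?_
  have h0 := tup_nonneg hp.1 L N v
  by_cases h1 : ∃ a : Fin c → Fin c → ℝ, (∀ j, a j ∈ B₀ ∨ ∃ i : Fin (J + 1),
      a j = D (fun i' => v (e (i, i')))) ∧ δ ^ c ≤ |(Matrix.of a).det|
  · rw [if_pos h1, if_pos]
    obtain ⟨a, h2, h3⟩ := h1
    refine ⟨a, fun j => ?_, h3⟩
    rcases h2 j with h4 | ⟨i, h4⟩
    · exact Or.inl h4
    · refine Or.inr ⟨fun i' => e (i, i'), fun x y hxy => ?_, h4⟩
      exact (Prod.ext_iff.1 (e.injective hxy)).2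
  · rw [if_neg h1]
    split_ifs
    · exact h0
    · exact le_rfl

end Pool.FEK74
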