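import Pool.Agent.H5.FAD.Sum

/-!
# Selection of the covector (row 366)

`A` is a body in which `x` is nearly full (`DF p T A x Z` small), `T` a fine body with axes along
the coordinates. `sel_thm`: there is a covector `m` with `m i0 = 1`, and `|m l|` bounded for the
other coordinates, with `log |m . v|` at most the entropy of the coordinate `i0` of `x` given the
others (in cells of `T`), up to the deficit and a constant, for every column `v` of `A`.
-/

set_option autoImplicit false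

namespace Pool.FEK74

open Matrix
open Finset Real
open Pool.Agent.H49.Ent Pool.Agent.H32.Dense Pool.FAD

variable {g : ℕ}

/-! ### Linear algebra -/

/-- The family: the columns of `A` and the axes `t l e_l` for `l ≠ i0`. -/
def fam (A : Matrix (Fin (g + 1)) (Fin (g + 1)) ℝ) (t : Fin (g + 1) → ℝ) (i0 : Fin (g + 1)) :
    Fin (g + 1) ⊕ Fin g → Fin (g + 1) → ℝ
  | .inl b => fun i => A i b
  | .inr l => Pi.single (i0.succAbove l) (t (i0.succAbove l))

/-- The part of the vectors of `f` outside of the coordinate `i0`. -/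
def gm (F : Fin (g + 1) ⊕ Fin g → Fin (g + 1) → ℝ) (i0 : Fin (g + 1))
    (f : Fin g → Fin (g + 1) ⊕ Fin g) : Matrix (Fin g) (Fin g) ℝ :=
  Matrix.of fun i k => F (f k) (i0.succAbove i)

/-- The body of `y` and the vectors of `f`. -/
def bod (F : Fin (g + 1) ⊕ Fin g → Fin (g + 1) → ℝ) (f : Fin g → Fin (g + 1) ⊕ Fin g)
    (y : Fin (g + 1) ⊕ Fin g) : Matrix (Fin (g + 1)) (Fin (g + 1)) ℝ :=
  Matrix.of fun i j => (Fin.cons (F y) (fun k => F (f k)) : Fin (g + 1) → Fin (g + 1) → ℝ) j i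

theorem det_row_one (i0 : Fin (g + 1)) (m : Fin (g + 1) → ℝ) :
    (updateRow (1 : Matrix (Fin (g + 1)) (Fin (g + 1)) ℝ) i0 m).det = m i0 := by
  have h := Matrix.cramer_transpose_apply (1 : Matrix (Fin (g + 1)) (Fin (g + 1)) ℝ) m i0
  rw [Matrix.transpose_one, Matrix.cramer_one] at h
  rw [← h]
  rfl

theorem det_bod (F : Fin (g + 1) ⊕ Fin g → Fin (g + 1) → ℝ) (i0 : Fin (g + 1))
    (f : Fin g → Fin (g + 1) ⊕ Fin g) (y : Fin (g + 1) ⊕ Fin g) (m : Fin (g + 1) → ℝ)
    (hm : m i0 = 1) (hk : ∀ k, m ⬝ᵥ F (f k) = 0) :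
    |(bod F f y).det| = |m ⬝ᵥ F y| * |(gm F i0 f).det| := by
  have h1 : (updateRow (1 : Matrix (Fin (g + 1)) (Fin (g + 1)) ℝ) i0 m * bod F f y).det =
      (bod F f y).det := by
    rw [Matrix.det_mul, det_row_one, hm, one_mul]
  have h2 : ∀ j, (updateRow (1 : Matrix (Fin (g + 1)) (Fin (g + 1)) ℝ) i0 m * bod F f y) i0 j =
      if j = 0 then m ⬝ᵥ F y else 0 := by
    intro j
    rw [Matrix.mul_apply]
    simp only [Matrix.updateRow_self]
    refine Fin.cases ?_ (fun k => ?_) j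
    · rw [if_pos rfl]
      simp [bod, dotProduct]
    · rw [if_neg (Fin.succ_ne_zero k), ← hk k]
      simp [bod, dotProduct]
  have h3 : (updateRow (1 : Matrix (Fin (g + 1)) (Fin (g + 1)) ℝ) i0 m * bod F f y).submatrix
      i0.succAbove (0 : Fin (g + 1)).succAbove = gm F i0 f := by
    ext i k
    rw [Matrix.submatrix_apply, Matrix.mul_apply]
    simp only [Matrix.updateRow_ne (Fin.succAbove_ne i0 i), Matrix.one_apply, ite_mul, one_mul,
      zero_mul, Finset.sum_ite_eq, Finset.mem_univ, if_true]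
    simp [bod, gm]
  rw [← h1, Matrix.det_succ_row _ i0, Fin.sum_univ_succ]
  rw [Finset.sum_eq_zero (fun k _ => by rw [h2, if_neg (Fin.succ_ne_zero k)]; ring), add_zero, h2,
    if_pos rfl, h3, abs_mul, abs_mul]
  simp

/-- Selection of the covector. -/
theorem sel_cov (A : Matrix (Fin (g + 1)) (Fin (g + 1)) ℝ) (hA : A.det ≠ 0)
    (t : Fin (g + 1) → ℝ) (ht : ∀ i, 0 < t i) (i0 : Fin (g + 1)) :
    ∃ (f : Fin g → Fin (g + 1) ⊕ Fin g) (y : Fin (g + 1) ⊕ Fin g) (m : Fin (g + 1) → ℝ),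
      (gm (fam A t i0) i0 f).det ≠ 0 ∧
      (∀ v k, |((gm (fam A t i0) i0 f)⁻¹ *ᵥ (fun i => fam A t i0 v (i0.succAbove i))) k| ≤ 1) ∧
      m i0 = 1 ∧
      (∀ v, m ⬝ᵥ fam A t i0 v = fam A t i0 v i0 - ∑ k, fam A t i0 (f k) i0 *
        ((gm (fam A t i0) i0 f)⁻¹ *ᵥ (fun i => fam A t i0 v (i0.succAbove i))) k) ∧
      (∀ v, |m ⬝ᵥ fam A t i0 v| ≤ |m ⬝ᵥ fam A t i0 y|) ∧ 0 < |m ⬝ᵥ fam A t i0 y| ∧
      |(bod (fam A t i0) f y).det| = |m ⬝ᵥ fam A t i0 y| * |(gm (fam A t i0) i0 f).det| := by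
  classical
  obtain ⟨f, hf⟩ := Finite.exists_max
    (fun f : Fin g → Fin (g + 1) ⊕ Fin g => |(gm (fam A t i0) i0 f).det|)
  set F := fam A t i0 with hF
  set J := gm F i0 f with hJ
  -- the minor does not vanish
  have hJ0 : J.det ≠ 0 := by
    have h1 := hf (fun k => Sum.inr k)
    have h2 : gm F i0 (fun k => Sum.inr k) =
        diagonal fun k => t (i0.succAbove k) := by
      ext i k
      simp only [gm, hF, fam, Matrix.of_apply, Matrix.diagonal_apply, Pi.single_apply]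
      by_cases e : i = k
      · subst e
        simp
      · rw [if_neg e, if_neg]
        intro h
        exact e (Fin.succAbove_right_injective h)
    have h3 : 0 < |(gm F i0 (fun k => Sum.inr k)).det| := by
      rw [h2, Matrix.det_diagonal, abs_pos]
      exact Finset.prod_ne_zero_iff.2 fun k _ => (ht _).ne'
    exact abs_pos.1 (h3.trans_le h1)
  -- Cramer
  have hc : ∀ v k, |(J⁻¹ *ᵥ (fun i => F v (i0.succAbove i))) k| ≤ 1 := by
    intro v k
    have h1 : (J⁻¹ *ᵥ (fun i => F v (i0.succAbove i))) k =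
        (gm F i0 (Function.update f k v)).det / J.det := by
      rw [Matrix.inv_def, Matrix.smul_mulVec, ← Matrix.cramer_eq_adjugate_mulVec, Pi.smul_apply,
        Matrix.cramer_apply, Ring.inverse_eq_inv', smul_eq_mul, div_eq_inv_mul]
      congr 2
      ext i j
      rw [Matrix.updateCol_apply]
      simp only [gm, hJ, Matrix.of_apply, Function.update_apply]
      by_cases e : j = k
      · rw [if_pos e, if_pos e]
      · rw [if_neg e, if_neg e]
    rw [h1, abs_div, div_le_one (abs_pos.2 hJ0)]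
    exact hf _
  -- the covector
  set m : Fin (g + 1) → ℝ := i0.insertNth 1 (fun l => -∑ k, F (f k) i0 * J⁻¹ k l) with hm
  have hm1 : m i0 = 1 := by rw [hm, Fin.insertNth_apply_same]
  have hm2 : ∀ v : Fin (g + 1) → ℝ, m ⬝ᵥ v = v i0 - ∑ k, F (f k) i0 *
      (J⁻¹ *ᵥ (fun i => v (i0.succAbove i))) k := by
    intro v
    unfold dotProduct
    rw [Fin.sum_univ_succAbove _ i0, hm1, one_mul, sub_eq_add_neg]
    congr 1
    have : ∀ l, m (i0.succAbove l) * v (i0.succAbove l) =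
        -∑ k, F (f k) i0 * (J⁻¹ k l * v (i0.succAbove l)) := by
      intro l
      rw [hm, Fin.insertNth_apply_succAbove, neg_mul, Finset.sum_mul]
      congr 1
      exact Finset.sum_congr rfl fun k _ => by ring
    simp only [this, Finset.sum_neg_distrib]
    rw [Finset.sum_comm]
    congr 1
    refine Finset.sum_congr rfl fun k _ => ?_
    rw [← Finset.mul_sum]
    rfl
  have hm3 : ∀ k, m ⬝ᵥ F (f k) = 0 := by
    intro k
    rw [hm2]
    have h1 : (fun i => F (f k) (i0.succAbove i)) = J *ᵥ Pi.single k 1 := by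
      rw [Matrix.mulVec_single_one]
      rfl
    rw [h1, Matrix.mulVec_mulVec, Matrix.nonsing_inv_mul _ (isUnit_iff_ne_zero.2 hJ0),
      Matrix.one_mulVec]
    simp [Pi.single_apply]
  obtain ⟨y, hy⟩ := Finite.exists_max (fun v => |m ⬝ᵥ F v|)
  have hy0 : 0 < |m ⬝ᵥ F y| := by
    by_contra h
    have h1 : |m ⬝ᵥ F y| = 0 := le_antisymm (not_lt.1 h) (abs_nonneg _)
    have h2 : m ᵥ* A = 0 := by
      funext b
      have := hy (Sum.inl b)
      rw [h1] at this
      have := abs_eq_zero.1 (le_antisymm this (abs_nonneg _))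
      exact this
    have h3 := Matrix.eq_zero_of_vecMul_eq_zero hA h2
    rw [h3] at hm1
    exact zero_ne_one hm1
  exact ⟨f, y, m, hJ0, hc, hm1, fun v => hm2 _, hy, hy0, det_bod F i0 f y m hm1 hm3⟩

/-! ### Bodies -/

/-- The part of the columns taken from `A`. -/
def sA (s : Fin (g + 1) → Fin (g + 1) ⊕ Fin g) : Matrix (Fin (g + 1)) (Fin (g + 1)) ℝ :=
  Matrix.of fun i j => match s j with
    | .inl b => if i = b then 1 else 0
    | .inr _ => 0

/-- The part of the columns which are axes. -/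
def sT (i0 : Fin (g + 1)) (s : Fin (g + 1) → Fin (g + 1) ⊕ Fin g) :
    Matrix (Fin (g + 1)) (Fin (g + 1)) ℝ :=
  Matrix.of fun i j => match s j with
    | .inl _ => 0
    | .inr l => if i = i0.succAbove l then 1 else 0

theorem sA_le (s : Fin (g + 1) → Fin (g + 1) ⊕ Fin g) (i : Fin (g + 1)) :
    ∑ j, |sA s i j| ≤ (g : ℝ) + 1 := by
  calc ∑ j, |sA s i j| ≤ ∑ _j : Fin (g + 1), (1 : ℝ) := by
        refine Finset.sum_le_sum fun j _ => ?_
        simp only [sA, Matrix.of_apply]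
        rcases s j with b | l
        · simp only
          split_ifs <;> simp
        · simp
    _ = _ := by simp

theorem sT_le (i0 : Fin (g + 1)) (s : Fin (g + 1) → Fin (g + 1) ⊕ Fin g) (i : Fin (g + 1)) :
    ∑ j, |sT i0 s i j| ≤ (g : ℝ) + 1 := by
  calc ∑ j, |sT i0 s i j| ≤ ∑ _j : Fin (g + 1), (1 : ℝ) := by
        refine Finset.sum_le_sum fun j _ => ?_
        simp only [sT, Matrix.of_apply]
        rcases s j with b | l
        · simp
        · simp only
          split_ifs <;> simp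
    _ = _ := by simp

theorem bod_eq (A : Matrix (Fin (g + 1)) (Fin (g + 1)) ℝ) (t : Fin (g + 1) → ℝ)
    (i0 : Fin (g + 1)) (f : Fin g → Fin (g + 1) ⊕ Fin g) (y : Fin (g + 1) ⊕ Fin g) :
    bod (fam A t i0) f y = A * sA (Fin.cons y f) + diagonal t * sT i0 (Fin.cons y f) := by
  have h : ∀ j, (Fin.cons (fam A t i0 y) (fun k => fam A t i0 (f k)) :
      Fin (g + 1) → Fin (g + 1) → ℝ) j = fam A t i0
        ((Fin.cons y f : Fin (g + 1) → Fin (g + 1) ⊕ Fin g) j) := by
    intro j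
    refine Fin.cases ?_ (fun k => ?_) j
    · rfl
    · rfl
  ext i j
  simp only [bod, Matrix.of_apply, h, Matrix.add_apply]
  rw [Matrix.mul_apply, Matrix.diagonal_mul]
  simp only [sA, sT, Matrix.of_apply]
  rcases ((Fin.cons y f : Fin (g + 1) → Fin (g + 1) ⊕ Fin g) j) with b | l
  · simp [fam]
  · simp only [fam, mul_zero, Finset.sum_const_zero, zero_add, Pi.single_apply]
    split_ifs with e
    · rw [e, mul_one]
    · rw [mul_zero]

variable {Ω ζ : Type} [Fintype Ω] {p : Ω → ℝ}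

theorem DF_self (h0 : ∀ ω, 0 ≤ p ω) (T : Ω → Matrix (Fin (g + 1)) (Fin (g + 1)) ℝ)
    (x : Ω → Fin (g + 1) → ℝ) (Z : Ω → ζ) : DF p T T x Z = 0 := by
  unfold DF
  rw [CH_eq_zero h0 (X := fun ω => cl (T ω) (x ω)) (W := fun ω => (cl (T ω) (x ω), Z ω))
    (fun ω ω' _ _ e => (Prod.ext_iff.mp e).1)]
  simp [Ex]

/-- The constant of the selection. -/
noncomputable def Csg (g : ℕ) (c : ℝ) : ℝ :=
  CF (g + 1) c ((g : ℝ) + 1) 1 + g * Real.log (2 * (2 + 1) + 1) + Cc g (g * c)

theorem cl_diag (t : Fin g → ℝ) (ht : ∀ i, 0 < t i) (x : Fin g → ℝ) (i : Fin g) :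
    cl (diagonal t) x i = ⌊x i / t i⌋ := by
  unfold cl
  rw [inv_diag ht, Matrix.mulVec_diagonal, div_eq_inv_mul]

theorem inc_diag {n : ℕ} {t s : Fin n → ℝ} (ht : ∀ i, 0 < t i) (hs : ∀ i, 0 < s i) {c : ℝ}
    (h : ∀ i, t i ≤ c * s i) : Inc c (diagonal t) (diagonal s) := by
  intro i
  rw [inv_diag hs, Matrix.diagonal_mul_diagonal]
  have e1 : ∀ j, |(diagonal fun i => (s i)⁻¹ * t i : Matrix (Fin n) (Fin n) ℝ) i j| =
      if i = j then (s i)⁻¹ * t i else 0 := by
    intro j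
    rw [Matrix.diagonal_apply]
    split_ifs
    · exact abs_of_pos (mul_pos (inv_pos.2 (hs i)) (ht i))
    · exact abs_zero
  simp only [e1, Finset.sum_ite_eq, Finset.mem_univ, if_true]
  rw [inv_mul_le_iff₀ (hs i), mul_comm]
  exact h i

/-- Deficit of the selected body. -/
theorem DF_bod (h0 : ∀ ω, 0 ≤ p ω) (h1 : ∑ ω, p ω = 1) (i0 : Fin (g + 1))
    (t s : Fin (g + 1) → ℝ) (ht : ∀ i, 0 < t i) (hs : ∀ i, 0 < s i)
    (A : Ω → Matrix (Fin (g + 1)) (Fin (g + 1)) ℝ)
    (x : Ω → Fin (g + 1) → ℝ) (Z : Ω → ζ) (hdA : Det p Z A) (hA : ∀ ω, (A ω).det ≠ 0)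
    {c : ℝ} (hc : 0 ≤ c) (hT : ∀ ω, Inc c (diagonal t) (A ω)) (hts : ∀ i, t i ≤ c * s i)
    (f : Ω → Fin g → Fin (g + 1) ⊕ Fin g) (y : Ω → Fin (g + 1) ⊕ Fin g)
    (hdf : Det p Z f) (hdy : Det p Z y)
    (hK : ∀ ω, (bod (fam (A ω) s i0) (f ω) (y ω)).det ≠ 0) :
    DF p (fun _ => diagonal t) (fun ω => bod (fam (A ω) s i0) (f ω) (y ω)) x Z ≤
      DF p (fun _ => diagonal t) A x Z + DF p (fun _ => diagonal t) (fun _ => diagonal s) x Z +
        CF (g + 1) c ((g : ℝ) + 1) 1 := by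
  have hdet : (diagonal t : Matrix (Fin (g + 1)) (Fin (g + 1)) ℝ).det ≠ 0 := det_diag ht
  have hdet' : (diagonal s : Matrix (Fin (g + 1)) (Fin (g + 1)) ℝ).det ≠ 0 := det_diag hs
  have key := full_sum (n := g + 1) h0 h1 (T := fun _ => diagonal t)
    (W := fun ω => bod (fam (A ω) s i0) (f ω) (y ω)) (N := 1)
    (![A, fun _ => diagonal s]) (![fun ω => sA (Fin.cons (y ω) (f ω)),
      fun ω => sT i0 (Fin.cons (y ω) (f ω))]) x Z
    (fun _ _ _ _ _ => rfl) (by
      intro ω ω' a b e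
      simp only
      rw [hdA ω ω' a b e, hdf ω ω' a b e, hdy ω ω' a b e])
    (by
      intro k
      refine Fin.cases ?_ (fun j => ?_) k
      · exact hdA
      · have : j = 0 := Subsingleton.elim _ _
        subst this
        exact fun _ _ _ _ _ => rfl)
    (fun _ => hdet) hK (by
      intro k
      refine Fin.cases ?_ (fun j => ?_) k
      · exact hA
      · have : j = 0 := Subsingleton.elim _ _
        subst this
        exact fun _ => hdet')
    (c := c) (b := (g : ℝ) + 1) hc (by positivity) (by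
      intro k
      refine Fin.cases ?_ (fun j => ?_) k
      · exact hT
      · have : j = 0 := Subsingleton.elim _ _
        subst this
        exact fun _ => inc_diag ht hs hts)
    (by
      intro ω
      rw [Fin.sum_univ_two]
      exact bod_eq _ _ _ _ _)
    (by
      intro k
      refine Fin.cases ?_ (fun j => ?_) k
      · exact fun ω i => sA_le _ i
      · have : j = 0 := Subsingleton.elim _ _
        subst this
        exact fun ω i => sT_le i0 _ i)
  rw [Fin.sum_univ_two] at key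
  simp only [Matrix.cons_val_zero, Matrix.cons_val_one] at key
  linarith

theorem lv_bod (F : Fin (g + 1) ⊕ Fin g → Fin (g + 1) → ℝ) (i0 : Fin (g + 1))
    (f : Fin g → Fin (g + 1) ⊕ Fin g) (y : Fin (g + 1) ⊕ Fin g) (m : Fin (g + 1) → ℝ)
    (hJ : (gm F i0 f).det ≠ 0) (hy : 0 < |m ⬝ᵥ F y|)
    (h : |(bod F f y).det| = |m ⬝ᵥ F y| * |(gm F i0 f).det|) :
    lv (bod F f y) = Real.log |m ⬝ᵥ F y| + lv (gm F i0 f) := by
  unfold lv
  rw [h, Real.log_mul hy.ne' (abs_pos.2 hJ).ne']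

/-- The small part of a point of the body. -/
theorem bod_mul (F : Fin (g + 1) ⊕ Fin g → Fin (g + 1) → ℝ) (i0 : Fin (g + 1))
    (f : Fin g → Fin (g + 1) ⊕ Fin g) (y : Fin (g + 1) ⊕ Fin g) (hJ : (gm F i0 f).det ≠ 0)
    (u : Fin (g + 1) → ℝ) (k : Fin g) :
    ((gm F i0 f)⁻¹ *ᵥ (fun i => (bod F f y *ᵥ u) (i0.succAbove i))) k =
      u 0 * ((gm F i0 f)⁻¹ *ᵥ (fun i => F y (i0.succAbove i))) k + u k.succ := by
  have h1 : (fun i => (bod F f y *ᵥ u) (i0.succAbove i)) =
      u 0 • (fun i => F y (i0.succAbove i)) + gm F i0 f *ᵥ (fun k => u k.succ) := by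
    funext i
    simp only [Matrix.mulVec, dotProduct, Pi.add_apply, Pi.smul_apply, smul_eq_mul]
    rw [Fin.sum_univ_succ]
    simp only [bod, gm, Matrix.of_apply, Fin.cons_zero, Fin.cons_succ]
    ring
  rw [h1, Matrix.mulVec_add, Matrix.mulVec_smul, Matrix.mulVec_mulVec,
    Matrix.nonsing_inv_mul _ (isUnit_iff_ne_zero.2 hJ), Matrix.one_mulVec]
  simp

/-- **Selection of the covector.** The fine cells are those of `t`, the axes of the family those
of `s`. -/
theorem sel_ent (h0 : ∀ ω, 0 ≤ p ω) (h1 : ∑ ω, p ω = 1) (i0 : Fin (g + 1))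
    (t s : Fin (g + 1) → ℝ) (ht : ∀ i, 0 < t i) (hs : ∀ i, 0 < s i)
    (x : Ω → Fin (g + 1) → ℝ) (Z : Ω → ζ) :
    ∃ (m : Matrix (Fin (g + 1)) (Fin (g + 1)) ℝ → Fin (g + 1) → ℝ)
      (M : Matrix (Fin (g + 1)) (Fin (g + 1)) ℝ → ℝ),
      (∀ B, B.det ≠ 0 → m B i0 = 1 ∧ 0 < M B ∧ (∀ b, |m B ⬝ᵥ (fun i => B i b)| ≤ M B) ∧
        (∀ l, l ≠ i0 → s l * |m B l| ≤ M B) ∧
        ∀ β, 0 ≤ β → (∀ b, |B i0 b| ≤ β) → ∀ l, l ≠ i0 → s l * |m B l| ≤ g * β) ∧
      ∀ (A : Ω → Matrix (Fin (g + 1)) (Fin (g + 1)) ℝ) (c : ℝ), Det p Z A →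
        (∀ ω, (A ω).det ≠ 0) → 0 ≤ c → (∀ ω, Inc c (diagonal t) (A ω)) →
        (∀ i, t i ≤ c * s i) →
        Ex p (fun ω => Real.log (M (A ω))) ≤ Real.log (t i0) +
          CH p (fun ω => ⌊x ω i0 / t i0⌋)
            (fun ω => ((fun l : Fin g => ⌊x ω (i0.succAbove l) / t (i0.succAbove l)⌋), Z ω)) +
          DF p (fun _ => diagonal t) A x Z +
          DF p (fun _ => diagonal t) (fun _ => diagonal s) x Z + Csg g c := by
  classical
  have hsel : ∀ B : Matrix (Fin (g + 1)) (Fin (g + 1)) ℝ,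
      ∃ P : (Fin g → Fin (g + 1) ⊕ Fin g) × (Fin (g + 1) ⊕ Fin g) × (Fin (g + 1) → ℝ),
      B.det ≠ 0 → ((gm (fam B s i0) i0 P.1).det ≠ 0 ∧
      (∀ v k, |((gm (fam B s i0) i0 P.1)⁻¹ *ᵥ
        (fun i => fam B s i0 v (i0.succAbove i))) k| ≤ 1) ∧
      P.2.2 i0 = 1 ∧
      (∀ v, P.2.2 ⬝ᵥ fam B s i0 v = fam B s i0 v i0 - ∑ k, fam B s i0 (P.1 k) i0 *
        ((gm (fam B s i0) i0 P.1)⁻¹ *ᵥ (fun i => fam B s i0 v (i0.succAbove i))) k) ∧
      (∀ v, |P.2.2 ⬝ᵥ fam B s i0 v| ≤ |P.2.2 ⬝ᵥ fam B s i0 P.2.1|) ∧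
      0 < |P.2.2 ⬝ᵥ fam B s i0 P.2.1| ∧
      |(bod (fam B s i0) P.1 P.2.1).det| = |P.2.2 ⬝ᵥ fam B s i0 P.2.1| *
        |(gm (fam B s i0) i0 P.1).det|) := by
    intro B
    by_cases hB : B.det ≠ 0
    · obtain ⟨f, y, m, hh⟩ := sel_cov B hB s hs i0
      exact ⟨(f, y, m), fun _ => hh⟩
    · exact ⟨(fun _ => Sum.inl 0, Sum.inl 0, 0), fun h => absurd h hB⟩
  choose P hP using hsel
  refine ⟨fun B => (P B).2.2, fun B => |(P B).2.2 ⬝ᵥ fam B s i0 (P B).2.1|, ?_, ?_⟩
  · intro B hB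
    obtain ⟨a1, a2, a3, a4, a5, a6, -⟩ := hP B hB
    have ax : ∀ l : Fin g, (P B).2.2 ⬝ᵥ fam B s i0 (Sum.inr l) =
        (P B).2.2 (i0.succAbove l) * s (i0.succAbove l) := by
      intro l
      simp [fam]
    refine ⟨a3, a6, fun b => a5 (Sum.inl b), ?_, ?_⟩
    · intro l hl
      obtain ⟨l', rfl⟩ := Fin.exists_succAbove_eq hl
      have := a5 (Sum.inr l')
      rw [ax, abs_mul, abs_of_pos (hs _), mul_comm] at this
      exact this
    · intro β hβ hb l hl
      obtain ⟨l', rfl⟩ := Fin.exists_succAbove_eq hl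
      have e1 := a4 (Sum.inr l')
      have e2 : fam B s i0 (Sum.inr l') i0 = 0 := by
        simp only [fam, Pi.single_apply]
        rw [if_neg (Fin.succAbove_ne i0 l').symm]
      rw [ax, e2, zero_sub] at e1
      have e3 : s (i0.succAbove l') * |(P B).2.2 (i0.succAbove l')| =
          |(P B).2.2 (i0.succAbove l') * s (i0.succAbove l')| := by
        rw [abs_mul, abs_of_pos (hs _), mul_comm]
      rw [e3, e1, abs_neg]
      refine (Finset.abs_sum_le_sum_abs _ _).trans ?_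
      calc ∑ k, |fam B s i0 ((P B).1 k) i0 * ((gm (fam B s i0) i0 (P B).1)⁻¹ *ᵥ
            (fun i => fam B s i0 (Sum.inr l') (i0.succAbove i))) k| ≤ ∑ _k : Fin g, β := by
            refine Finset.sum_le_sum fun k _ => ?_
            rw [abs_mul]
            have e4 : |fam B s i0 ((P B).1 k) i0| ≤ β := by
              rcases (P B).1 k with b | l
              · exact hb b
              · simp only [fam, Pi.single_apply]
                rw [if_neg (Fin.succAbove_ne i0 l).symm, abs_zero]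
                exact hβ
            calc _ ≤ β * 1 := mul_le_mul e4 (a2 _ _) (abs_nonneg _) hβ
              _ = β := mul_one _
        _ = g * β := by simp
  · intro A c hdA hA hc hT hts
    have hdet : (diagonal t : Matrix (Fin (g + 1)) (Fin (g + 1)) ℝ).det ≠ 0 := det_diag ht
    obtain ⟨f, hf⟩ : ∃ f : Ω → Fin g → Fin (g + 1) ⊕ Fin g, f = fun ω => (P (A ω)).1 := ⟨_, rfl⟩
    obtain ⟨y, hy⟩ : ∃ y : Ω → Fin (g + 1) ⊕ Fin g, y = fun ω => (P (A ω)).2.1 := ⟨_, rfl⟩
    obtain ⟨m, hm⟩ : ∃ m : Ω → Fin (g + 1) → ℝ, m = fun ω => (P (A ω)).2.2 := ⟨_, rfl⟩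
    have key : ∀ ω, ((gm (fam (A ω) s i0) i0 (f ω)).det ≠ 0 ∧
      (∀ v k, |((gm (fam (A ω) s i0) i0 (f ω))⁻¹ *ᵥ
        (fun i => fam (A ω) s i0 v (i0.succAbove i))) k| ≤ 1) ∧
      0 < |m ω ⬝ᵥ fam (A ω) s i0 (y ω)| ∧
      |(bod (fam (A ω) s i0) (f ω) (y ω)).det| = |m ω ⬝ᵥ fam (A ω) s i0 (y ω)| *
        |(gm (fam (A ω) s i0) i0 (f ω)).det|) := by
      intro ω
      obtain ⟨a1, a2, a3, a4, a5, a6, a7⟩ := hP (A ω) (hA ω)
      rw [hf, hy, hm]
      exact ⟨a1, a2, a6, a7⟩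
    have hdf : Det p Z f := by
      intro ω ω' a b e
      rw [hf]
      simp only
      rw [hdA ω ω' a b e]
    have hdy : Det p Z y := by
      intro ω ω' a b e
      rw [hy]
      simp only
      rw [hdA ω ω' a b e]
    have hK : ∀ ω, (bod (fam (A ω) s i0) (f ω) (y ω)).det ≠ 0 := by
      intro ω
      obtain ⟨a1, a2, a3, a4⟩ := key ω
      rw [← abs_pos, a4]
      exact mul_pos a3 (abs_pos.2 a1)
    have s1 := DF_bod h0 h1 i0 t s ht hs A x Z hdA hA hc hT hts f y hdf hdy hK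
    obtain ⟨K, hKd⟩ : ∃ K : Ω → Matrix (Fin (g + 1)) (Fin (g + 1)) ℝ,
        K = fun ω => bod (fam (A ω) s i0) (f ω) (y ω) := ⟨_, rfl⟩
    obtain ⟨J, hJd⟩ : ∃ J : Ω → Matrix (Fin g) (Fin g) ℝ,
        J = fun ω => gm (fam (A ω) s i0) i0 (f ω) := ⟨_, rfl⟩
    have hJ0 : ∀ ω, (J ω).det ≠ 0 := fun ω => by rw [hJd]; exact (key ω).1
    have hK0 : ∀ ω, (K ω).det ≠ 0 := fun ω => by rw [hKd]; exact hK ω
    have hdK : Det p Z K := by
      intro ω ω' a b e
      rw [hKd]
      simp only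
      rw [hdA ω ω' a b e, hdf ω ω' a b e, hdy ω ω' a b e]
    have hdJ : Det p Z J := by
      intro ω ω' a b e
      rw [hJd]
      simp only
      rw [hdA ω ω' a b e, hdf ω ω' a b e]
    rw [← hKd] at s1
    set tG : Fin g → ℝ := fun l => t (i0.succAbove l) with htG
    have htG0 : ∀ l, 0 < tG l := fun l => ht _
    obtain ⟨xG, hxG⟩ : ∃ xG : Ω → Fin g → ℝ, xG = fun ω l => x ω (i0.succAbove l) := ⟨_, rfl⟩
    obtain ⟨cG, hcG⟩ : ∃ cG : Ω → Fin g → ℤ, cG = fun ω => cl (diagonal tG) (xG ω) := ⟨_, rfl⟩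
    have hcG' : cG = fun ω => (fun l : Fin g =>
        ⌊x ω (i0.succAbove l) / t (i0.succAbove l)⌋) := by
      rw [hcG]
      funext ω l
      rw [cl_diag tG htG0, hxG]
    -- the cell of the whole point is given by the two parts
    have s2 : CH p (fun ω => cl (diagonal t) (x ω)) (fun ω => (cl (K ω) (x ω), Z ω)) ≤
        CH p cG (fun ω => (cl (K ω) (x ω), Z ω)) +
        CH p (fun ω => ⌊x ω i0 / t i0⌋) (fun ω => (cG ω, Z ω)) := by
      have b1 : CH p (fun ω => cl (diagonal t) (x ω)) (fun ω => (cl (K ω) (x ω), Z ω)) ≤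
          CH p (fun ω => (⌊x ω i0 / t i0⌋, cG ω)) (fun ω => (cl (K ω) (x ω), Z ω)) := by
        refine CH_mono_left h0 ?_
        intro ω ω' _ _ e
        have e1 := Prod.ext_iff.mp (Prod.ext_iff.mp e).1
        have e2 : cG ω = cG ω' := e1.2
        rw [hcG'] at e2
        funext i
        show cl (diagonal t) (x ω) i = cl (diagonal t) (x ω') i
        rw [cl_diag t ht, cl_diag t ht]
        rcases eq_or_ne i i0 with h | h
        · rw [h]
          exact e1.1
        · obtain ⟨l, rfl⟩ := Fin.exists_succAbove_eq h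
          exact congrFun e2 l
      have b2 := CH_chain h0 (fun ω => ⌊x ω i0 / t i0⌋) cG (fun ω => (cl (K ω) (x ω), Z ω))
      have b3 : CH p (fun ω => ⌊x ω i0 / t i0⌋) (fun ω => (cG ω, (cl (K ω) (x ω), Z ω))) ≤
          CH p (fun ω => ⌊x ω i0 / t i0⌋) (fun ω => (cG ω, Z ω)) := by
        refine CH_mono_cond h0 ?_
        intro ω ω' _ _ e
        have e1 := Prod.ext_iff.mp e
        exact Prod.ext e1.1 (Prod.ext_iff.mp e1.2).2
      linarith
    -- the small part
    have s3 : CH p (fun ω => cl (J ω) (xG ω)) (fun ω => (cl (K ω) (x ω), Z ω)) ≤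
        g * Real.log (2 * (2 + 1) + 1) := by
      have b := CH_le_vec h0 h1 (fun ω => cl (J ω) (xG ω)) (fun ω => (cl (K ω) (x ω), Z ω))
        (fun _ => 2 + 1) (by
          intro ω ω' a b e k
          have e1 := Prod.ext_iff.mp e
          have e2 : K ω = K ω' := hdK ω ω' a b e1.2
          have e3 : J ω = J ω' := hdJ ω ω' a b e1.2
          have e4 : cl (K ω) (x ω) = cl (K ω) (x ω') := by
            have := e1.1
            simp only at this
            rw [this, e2]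
          simp only [cl]
          rw [← e3]
          refine floor_sub_le ?_
          have e5 : ∀ z : Fin (g + 1) → ℝ, ((J ω)⁻¹ *ᵥ (fun l => z (i0.succAbove l))) k =
              ((K ω)⁻¹ *ᵥ z) 0 * ((J ω)⁻¹ *ᵥ
                (fun i => fam (A ω) s i0 (y ω) (i0.succAbove i))) k +
              ((K ω)⁻¹ *ᵥ z) k.succ := by
            intro z
            have := bod_mul (fam (A ω) s i0) i0 (f ω) (y ω) (key ω).1 ((K ω)⁻¹ *ᵥ z) k
            have e6 : bod (fam (A ω) s i0) (f ω) (y ω) *ᵥ ((K ω)⁻¹ *ᵥ z) = z := by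
              have e7 : bod (fam (A ω) s i0) (f ω) (y ω) = K ω := by rw [hKd]
              rw [e7, Matrix.mulVec_mulVec,
                Matrix.mul_nonsing_inv _ (isUnit_iff_ne_zero.2 (hK0 ω)), Matrix.one_mulVec]
            rw [e6] at this
            rw [hJd]
            exact this
          have e8 : xG ω = fun l => x ω (i0.succAbove l) := by rw [hxG]
          have e9 : xG ω' = fun l => x ω' (i0.succAbove l) := by rw [hxG]
          rw [e8, e9, e5 (x ω), e5 (x ω')]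
          have c1 := abs_sub_of_floor (congrFun e4 0)
          have c2 := abs_sub_of_floor (congrFun e4 k.succ)
          have c3 : |((J ω)⁻¹ *ᵥ (fun i => fam (A ω) s i0 (y ω) (i0.succAbove i))) k| ≤ 1 := by
            rw [hJd]
            exact (key ω).2.1 _ _
          set u := ((K ω)⁻¹ *ᵥ x ω)
          set u' := ((K ω)⁻¹ *ᵥ x ω')
          set q := ((J ω)⁻¹ *ᵥ (fun i => fam (A ω) s i0 (y ω) (i0.succAbove i))) k
          have c4 : u 0 * q + u k.succ - (u' 0 * q + u' k.succ) =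
              (u 0 - u' 0) * q + (u k.succ - u' k.succ) := by ring
          rw [c4]
          refine (abs_add_le _ _).trans ?_
          rw [abs_mul]
          have c5 : |u 0 - u' 0| * |q| ≤ 1 * 1 := mul_le_mul c1 c3 (abs_nonneg _) zero_le_one
          linarith)
      rwa [Ex_const h1] at b
    have s4 : CH p cG (fun ω => (cl (J ω) (xG ω), Z ω)) ≤
        Ex p (fun ω => lv (J ω) - lv (diagonal tG)) + Cc g (g * c) := by
      have b := CH_count h0 h1 (T := fun _ => diagonal tG) (S := J) xG Z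
        (fun _ _ _ _ _ => rfl) hdJ (fun _ => det_diag htG0) hJ0 (c := (g : ℝ) * c)
        (by positivity) (by
          intro ω i
          calc ∑ j, |((J ω)⁻¹ * diagonal tG) i j| ≤ ∑ _j : Fin g, c := by
                refine Finset.sum_le_sum fun j _ => ?_
                have e1 := (key ω).2.1 (Sum.inr j) i
                have e2 : ((J ω)⁻¹) i j * s (i0.succAbove j) =
                    ((gm (fam (A ω) s i0) i0 (f ω))⁻¹ *ᵥ
                      (fun i => fam (A ω) s i0 (Sum.inr j) (i0.succAbove i))) i := by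
                  rw [hJd]
                  have e3 : (fun i => fam (A ω) s i0 (Sum.inr j) (i0.succAbove i)) =
                      Pi.single j (s (i0.succAbove j)) := by
                    funext l
                    simp only [fam, Pi.single_apply]
                    by_cases h : l = j
                    · rw [if_pos h, h, if_pos rfl]
                    · rw [if_neg h, if_neg]
                      intro h'
                      exact h (Fin.succAbove_right_injective h')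
                  rw [e3, Matrix.mulVec_single]
                  simp [mul_comm]
                rw [← e2, abs_mul, abs_of_pos (hs _)] at e1
                rw [Matrix.mul_diagonal, abs_mul, abs_of_pos (htG0 j)]
                calc |(J ω)⁻¹ i j| * tG j ≤ |(J ω)⁻¹ i j| * (c * s (i0.succAbove j)) :=
                      mul_le_mul_of_nonneg_left (hts _) (abs_nonneg _)
                  _ = c * (|(J ω)⁻¹ i j| * s (i0.succAbove j)) := by ring
                  _ ≤ c * 1 := mul_le_mul_of_nonneg_left e1 hc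
                  _ = c := mul_one _
            _ = g * c := by simp)
      rwa [← hcG] at b
    have s5 : CH p cG (fun ω => (cl (K ω) (x ω), Z ω)) ≤
        CH p (fun ω => cl (J ω) (xG ω)) (fun ω => (cl (K ω) (x ω), Z ω)) +
        CH p cG (fun ω => (cl (J ω) (xG ω), Z ω)) := by
      have b1 := CH_le_add h0 cG (fun ω => cl (J ω) (xG ω)) (fun ω => (cl (K ω) (x ω), Z ω))
      have b2 : CH p cG (fun ω => (cl (J ω) (xG ω), (cl (K ω) (x ω), Z ω))) ≤
          CH p cG (fun ω => (cl (J ω) (xG ω), Z ω)) := by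
        refine CH_mono_cond h0 ?_
        intro ω ω' _ _ e
        have e1 := Prod.ext_iff.mp e
        exact Prod.ext e1.1 (Prod.ext_iff.mp e1.2).2
      linarith
    -- volumes
    have s6 : lv (diagonal t : Matrix (Fin (g + 1)) (Fin (g + 1)) ℝ) =
        Real.log (t i0) + lv (diagonal tG) := by
      unfold lv
      have hp : 0 < ∏ l, tG l := Finset.prod_pos fun l _ => htG0 l
      rw [Matrix.det_diagonal, Matrix.det_diagonal, Fin.prod_univ_succAbove _ i0, abs_mul,
        abs_of_pos (ht i0), Real.log_mul (ht i0).ne' (abs_pos.2 hp.ne').ne']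
    have s7 : Ex p (fun ω => lv (K ω) - lv (diagonal t)) =
        Ex p (fun ω => Real.log |(P (A ω)).2.2 ⬝ᵥ fam (A ω) s i0 (P (A ω)).2.1|) -
          Real.log (t i0) + Ex p (fun ω => lv (J ω) - lv (diagonal tG)) := by
      rw [← Ex_const h1 (Real.log (t i0)), ← Ex_sub, ← Ex_add]
      congr 1
      funext ω
      have := lv_bod (fam (A ω) s i0) i0 (f ω) (y ω) (m ω) (key ω).1 (key ω).2.2.1
        (key ω).2.2.2
      rw [hm, hy] at this
      have e1 : K ω = bod (fam (A ω) s i0) (f ω) (P (A ω)).2.1 := by rw [hKd, hy]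
      have e2 : J ω = gm (fam (A ω) s i0) i0 (f ω) := by rw [hJd]
      rw [e1, e2, this, s6]
      ring
    have s8 : DF p (fun _ => diagonal t) K x Z =
        Ex p (fun ω => lv (K ω) - lv (diagonal t)) -
        CH p (fun ω => cl (diagonal t) (x ω)) (fun ω => (cl (K ω) (x ω), Z ω)) := rfl
    have s9 : (fun ω => ((fun l : Fin g => ⌊x ω (i0.succAbove l) / t (i0.succAbove l)⌋), Z ω)) =
        fun ω => (cG ω, Z ω) := by rw [hcG']
    rw [s9]
    unfold Csg
    beta_reduce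
    have t1 := s1
    rw [s8, s7] at t1
    have t2 : CH p cG (fun ω => (cl (K ω) (x ω), Z ω)) ≤ g * Real.log (2 * (2 + 1) + 1) +
        (Ex p (fun ω => lv (J ω) - lv (diagonal tG)) + Cc g (g * c)) :=
      s5.trans (add_le_add s3 s4)
    have t3 := s2
    clear s1 s2 s3 s4 s5 s7 s8
    generalize Ex p (fun ω => Real.log |(P (A ω)).2.2 ⬝ᵥ fam (A ω) s i0 (P (A ω)).2.1|) = E1
      at t1 ⊢
    generalize Ex p (fun ω => lv (J ω) - lv (diagonal tG)) = E2 at t1 t2
    generalize CH p (fun ω => cl (diagonal t) (x ω)) (fun ω => (cl (K ω) (x ω), Z ω)) = E3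
      at t1 t3
    generalize CH p cG (fun ω => (cl (K ω) (x ω), Z ω)) = E4 at t2 t3
    generalize CH p (fun ω => ⌊x ω i0 / t i0⌋) (fun ω => (cG ω, Z ω)) = E5 at t3 ⊢
    generalize DF p (fun _ => diagonal t) A x Z = E6 at t1 ⊢
    generalize DF p (fun _ => diagonal t) (fun _ => diagonal s) x Z = E7 at t1 ⊢
    linarith

/-- The same for a constant body. -/
theorem sel_thm2 (h0 : ∀ ω, 0 ≤ p ω) (h1 : ∑ ω, p ω = 1) (i0 : Fin (g + 1))
    (t s : Fin (g + 1) → ℝ) (ht : ∀ i, 0 < t i) (hs : ∀ i, 0 < s i)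
    (x : Ω → Fin (g + 1) → ℝ) (Z : Ω → ζ)
    (A : Matrix (Fin (g + 1)) (Fin (g + 1)) ℝ) (hA : A.det ≠ 0) {c : ℝ} (hc : 0 ≤ c)
    (hT : Inc c (diagonal t) A) (hts : ∀ i, t i ≤ c * s i) :
    ∃ m : Fin (g + 1) → ℝ, m i0 = 1 ∧
      (∀ β, 0 ≤ β → (∀ b, |A i0 b| ≤ β) → ∀ l, l ≠ i0 → s l * |m l| ≤ g * β) ∧
      (∀ l, l ≠ i0 → s l * |m l| ≤ t i0 * Real.exp (CH p (fun ω => ⌊x ω i0 / t i0⌋)
            (fun ω => ((fun l : Fin g => ⌊x ω (i0.succAbove l) / t (i0.succAbove l)⌋), Z ω)) +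
          DF p (fun _ => diagonal t) (fun _ => A) x Z +
          DF p (fun _ => diagonal t) (fun _ => diagonal s) x Z + Csg g c)) ∧
      ∀ b, |m ⬝ᵥ (fun i => A i b)| ≤ t i0 * Real.exp (CH p (fun ω => ⌊x ω i0 / t i0⌋)
            (fun ω => ((fun l : Fin g => ⌊x ω (i0.succAbove l) / t (i0.succAbove l)⌋), Z ω)) +
          DF p (fun _ => diagonal t) (fun _ => A) x Z +
          DF p (fun _ => diagonal t) (fun _ => diagonal s) x Z + Csg g c) := by
  obtain ⟨m, M, a1, a2⟩ := sel_ent h0 h1 i0 t s ht hs x Z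
  obtain ⟨b1, b2, b3, b4, b5⟩ := a1 A hA
  have key := a2 (fun _ => A) c (fun _ _ _ _ _ => rfl) (fun _ => hA) hc (fun _ => hT) hts
  rw [Ex_const h1] at key
  have hM : M A ≤ t i0 * Real.exp (CH p (fun ω => ⌊x ω i0 / t i0⌋)
            (fun ω => ((fun l : Fin g => ⌊x ω (i0.succAbove l) / t (i0.succAbove l)⌋), Z ω)) +
          DF p (fun _ => diagonal t) (fun _ => A) x Z +
          DF p (fun _ => diagonal t) (fun _ => diagonal s) x Z + Csg g c) := by
    rw [← Real.exp_log b2, ← Real.exp_log (ht i0), ← Real.exp_add]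
    refine Real.exp_le_exp.2 ?_
    rw [Real.exp_log (ht i0)]
    linarith
  exact ⟨m A, b1, b5, fun l hl => (b4 l hl).trans hM, fun b => (b3 b).trans hM⟩

/-- The same with the axes of the fine cells. -/
theorem sel_thm (h0 : ∀ ω, 0 ≤ p ω) (h1 : ∑ ω, p ω = 1) (i0 : Fin (g + 1))
    (t : Fin (g + 1) → ℝ) (ht : ∀ i, 0 < t i) (x : Ω → Fin (g + 1) → ℝ) (Z : Ω → ζ)
    (A : Matrix (Fin (g + 1)) (Fin (g + 1)) ℝ) (hA : A.det ≠ 0) {c : ℝ} (hc : 1 ≤ c)
    (hT : Inc c (diagonal t) A) :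
    ∃ m : Fin (g + 1) → ℝ, m i0 = 1 ∧
      (∀ β, 0 ≤ β → (∀ b, |A i0 b| ≤ β) → ∀ l, l ≠ i0 → t l * |m l| ≤ g * β) ∧
      (∀ l, l ≠ i0 → t l * |m l| ≤ t i0 * Real.exp (CH p (fun ω => ⌊x ω i0 / t i0⌋)
            (fun ω => ((fun l : Fin g => ⌊x ω (i0.succAbove l) / t (i0.succAbove l)⌋), Z ω)) +
          DF p (fun _ => diagonal t) (fun _ => A) x Z + Csg g c)) ∧
      ∀ b, |m ⬝ᵥ (fun i => A i b)| ≤ t i0 * Real.exp (CH p (fun ω => ⌊x ω i0 / t i0⌋)
            (fun ω => ((fun l : Fin g => ⌊x ω (i0.succAbove l) / t (i0.succAbove l)⌋), Z ω)) +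
          DF p (fun _ => diagonal t) (fun _ => A) x Z + Csg g c) := by
  have h := sel_thm2 h0 h1 i0 t t ht ht x Z A hA (zero_le_one.trans hc) hT
    (fun i => le_mul_of_one_le_left (ht i).le hc)
  rw [DF_self h0 (fun _ => diagonal t) x Z, add_zero] at h
  exact h

end Pool.FEK74
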