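import Pool.Agent.H87.SLO.Tup
import Pool.Agent.H19.BFL.Stmts

/-!
# Affine functions of the time from triples of one line

`aff_of_tup`: if for most triples of samples of one line (independent given the line) the values of
`f` are an affine function of the values of `τ` up to `δ`, two of the values of `τ` being at
distance `≥ s`, then `f` is up to `δ / s` an affine function of `τ` with coefficients which are
functions of the line.
-/

set_option autoImplicit false

namespace Pool.FEK74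

open Finset
open Pool.Agent.H49.Ent Pool.Agent.H32.Dense Pool.STK Pool.SLO
open Pool.BFL (Pb)

variable {Ω Λ : Type} [Fintype Ω]

/-- Interpolation. -/
theorem interp {f0 f1 f2 t0 t1 t2 s δ : ℝ} (hs : 0 < s) (h1 : s ≤ |t0 - t1|)
    (h2 : |(f2 - f0) * (t1 - t0) - (f1 - f0) * (t2 - t0)| ≤ δ) :
    |f2 - (f0 - (f1 - f0) / (t1 - t0) * t0) - (f1 - f0) / (t1 - t0) * t2| ≤ δ / s := by
  have h3 : 0 < |t1 - t0| := by
    rw [abs_sub_comm]
    exact hs.trans_le h1
  have h4 : t1 - t0 ≠ 0 := abs_pos.1 h3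
  have e1 : f2 - (f0 - (f1 - f0) / (t1 - t0) * t0) - (f1 - f0) / (t1 - t0) * t2 =
      ((f2 - f0) * (t1 - t0) - (f1 - f0) * (t2 - t0)) / (t1 - t0) := by
    field_simp
    ring
  rw [e1, abs_div, div_le_div_iff₀ h3 hs]
  have h5 : s ≤ |t1 - t0| := by rwa [abs_sub_comm] at h1
  have h6 : 0 ≤ δ := (abs_nonneg _).trans h2
  calc _ ≤ δ * s := mul_le_mul_of_nonneg_right h2 hs.le
    _ ≤ δ * |t1 - t0| := mul_le_mul_of_nonneg_left h5 h6

/-- Triple sums. -/
theorem sum_three (F : Ω → Ω → Ω → ℝ) :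
    ∑ v : Fin 3 → Ω, F (v 0) (v 1) (v 2) = ∑ a, ∑ b, ∑ c, F a b c := by
  classical
  let e : (Fin 3 → Ω) ≃ Ω × Ω × Ω :=
    { toFun := fun v => (v 0, v 1, v 2)
      invFun := fun x => ![x.1, x.2.1, x.2.2]
      left_inv := fun v => by
        funext j
        fin_cases j <;> rfl
      right_inv := fun x => rfl }
  rw [Fintype.sum_equiv e (fun v => F (v 0) (v 1) (v 2)) (fun x => F x.1 x.2.1 x.2.2)
    fun v => rfl, Fintype.sum_prod_type]
  exact Finset.sum_congr rfl fun a _ => Fintype.sum_prod_type _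

open Classical in
/-- A law is the mixture of its conditional laws. -/
theorem mix {p : Ω → ℝ} (hp : ∀ ω, 0 ≤ p ω) (L : Ω → Λ) (g : Ω → ℝ) :
    ∑ ω, p ω * g ω = ∑ z ∈ Finset.univ.image L, law p L z * ∑ ω, cond p L z ω * g ω := by
  have h1 : ∀ ω, p ω = ∑ z ∈ Finset.univ.image L, law p L z * cond p L z ω := by
    intro ω
    have h := tup_mix hp L 0 (fun _ => ω)
    rw [tup_zero] at h
    rw [h]
    refine Finset.sum_congr rfl fun z _ => ?_
    simp
  calc ∑ ω, p ω * g ω = ∑ ω, (∑ z ∈ Finset.univ.image L, law p L z * cond p L z ω) * g ω :=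
        Finset.sum_congr rfl fun ω _ => by rw [← h1 ω]
    _ = ∑ ω, ∑ z ∈ Finset.univ.image L, law p L z * (cond p L z ω * g ω) :=
        Finset.sum_congr rfl fun ω _ => by
          rw [Finset.sum_mul]
          exact Finset.sum_congr rfl fun z _ => by ring
    _ = _ := by
        rw [Finset.sum_comm]
        exact Finset.sum_congr rfl fun z _ => by rw [Finset.mul_sum]

/-- **Averaging over triples of one line.** -/
theorem aff_of_tup {p : Ω → ℝ} (hp : IsLaw p) (L : Ω → Λ) (τ f : Ω → ℝ) (s δ ε : ℝ) (hs : 0 < s)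
    (h : Pb (tup p L 2) (fun v => ¬ (s ≤ |τ (v 0) - τ (v 1)| ∧
      |(f (v 2) - f (v 0)) * (τ (v 1) - τ (v 0)) - (f (v 1) - f (v 0)) * (τ (v 2) - τ (v 0))| ≤
        δ)) ≤ ε) :
    ∃ e0 e1 : Λ → ℝ, Pb p (fun ω => ¬ (|f ω - e0 (L ω) - e1 (L ω) * τ ω| ≤ δ / s)) ≤ ε ∧
      ∀ z, (e0 z = 0 ∧ e1 z = 0) ∨ ∃ a b : Ω, L a = z ∧ L b = z ∧ 0 < p a ∧ 0 < p b ∧
        s ≤ |τ a - τ b| ∧ e1 z = (f b - f a) / (τ b - τ a) ∧ e0 z = f a - e1 z * τ a := by
  classical
  have hp0 : ∀ ω, 0 ≤ p ω := hp.1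
  obtain ⟨Bd, hBd⟩ : ∃ Bd : Ω → Ω → Ω → Prop, Bd = fun a b c => ¬ (s ≤ |τ a - τ b| ∧
    |(f c - f a) * (τ b - τ a) - (f b - f a) * (τ c - τ a)| ≤ δ) := ⟨_, rfl⟩
  obtain ⟨φ, hφ⟩ : ∃ φ : Λ → Ω → Ω → ℝ, φ = fun z a b =>
    ∑ c, cond p L z c * (if Bd a b c then 1 else 0) := ⟨_, rfl⟩
  have hφ0 : ∀ z a b, 0 ≤ φ z a b := by
    intro z a b
    rw [hφ]
    exact Finset.sum_nonneg fun c _ => mul_nonneg (cond_nonneg hp0 L z c) (by split_ifs <;> simp)
  obtain ⟨m, hm⟩ : ∃ m : Λ → ℝ, m = fun z =>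
    ∑ a, ∑ b, cond p L z a * (cond p L z b * φ z a b) := ⟨_, rfl⟩
  -- the best pair of the line
  have hbest : ∀ z, law p L z ≠ 0 → ∃ a b : Ω, L a = z ∧ L b = z ∧ 0 < p a ∧ 0 < p b ∧
      φ z a b ≤ m z := by
    intro z hz
    by_contra hcon
    push Not at hcon
    have h1 := sum_cond p L hz
    have h2 : ∑ a, ∑ b, cond p L z a * (cond p L z b * (φ z a b - m z)) = 0 := by
      have e1 : ∀ a, ∑ b, cond p L z a * (cond p L z b * (φ z a b - m z)) =
          (∑ b, cond p L z a * (cond p L z b * φ z a b)) - cond p L z a * m z := by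
        intro a
        have : cond p L z a * m z = ∑ b, cond p L z a * (cond p L z b * m z) := by
          rw [← Finset.mul_sum, ← Finset.sum_mul, h1, one_mul]
        rw [this, ← Finset.sum_sub_distrib]
        exact Finset.sum_congr rfl fun b _ => by ring
      rw [Finset.sum_congr rfl fun a _ => e1 a, Finset.sum_sub_distrib, ← Finset.sum_mul, h1,
        one_mul]
      rw [hm]
      exact sub_self _
    have h3 : ∀ a b, 0 ≤ cond p L z a * (cond p L z b * (φ z a b - m z)) := by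
      intro a b
      rcases (cond_nonneg hp0 L z a).eq_or_lt with ha | ha
      · rw [← ha, zero_mul]
      rcases (cond_nonneg hp0 L z b).eq_or_lt with hb | hb
      · rw [← hb, zero_mul, mul_zero]
      have ha' := (cond_pos_iff hp0 L z a).1 ha
      have hb' := (cond_pos_iff hp0 L z b).1 hb
      have h4 := hcon a b ha'.2 hb'.2 ha'.1 hb'.1
      exact mul_nonneg ha.le (mul_nonneg hb.le (by linarith))
    obtain ⟨a, ha⟩ : ∃ a, 0 < cond p L z a := by
      by_contra hno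
      push Not at hno
      have : ∑ ω, cond p L z ω ≤ 0 := Finset.sum_nonpos fun ω _ => hno ω
      linarith
    have ha' := (cond_pos_iff hp0 L z a).1 ha
    have h4 := hcon a a ha'.2 ha'.2 ha'.1 ha'.1
    have h5 : 0 < cond p L z a * (cond p L z a * (φ z a a - m z)) :=
      mul_pos ha (mul_pos ha (by linarith))
    have h6 : cond p L z a * (cond p L z a * (φ z a a - m z)) ≤
        ∑ b, cond p L z a * (cond p L z b * (φ z a b - m z)) :=
      Finset.single_le_sum (f := fun b => cond p L z a * (cond p L z b * (φ z a b - m z)))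
        (fun b _ => h3 a b) (Finset.mem_univ a)
    have h7 : ∑ b, cond p L z a * (cond p L z b * (φ z a b - m z)) ≤
        ∑ a, ∑ b, cond p L z a * (cond p L z b * (φ z a b - m z)) :=
      Finset.single_le_sum
        (f := fun a => ∑ b, cond p L z a * (cond p L z b * (φ z a b - m z)))
        (fun a _ => Finset.sum_nonneg fun b _ => h3 a b) (Finset.mem_univ a)
    linarith
  have hch : ∀ z, ∃ e : ℝ × ℝ, (law p L z ≠ 0 →
        ∑ c, cond p L z c * (if ¬ (|f c - e.1 - e.2 * τ c| ≤ δ / s) then 1 else 0) ≤ m z) ∧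
      ((e.1 = 0 ∧ e.2 = 0) ∨ ∃ a b : Ω, L a = z ∧ L b = z ∧ 0 < p a ∧ 0 < p b ∧
        s ≤ |τ a - τ b| ∧ e.2 = (f b - f a) / (τ b - τ a) ∧ e.1 = f a - e.2 * τ a) := by
    intro z
    by_cases hz : law p L z = 0
    · exact ⟨(0, 0), fun h => absurd hz h, Or.inl ⟨rfl, rfl⟩⟩
    obtain ⟨a, b, ha, hb, hpa, hpb, hab⟩ := hbest z hz
    by_cases hsab : s ≤ |τ a - τ b|
    · refine ⟨(f a - (f b - f a) / (τ b - τ a) * τ a, (f b - f a) / (τ b - τ a)),
        fun _ => le_trans ?_ hab,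
        Or.inr ⟨a, b, ha, hb, hpa, hpb, hsab, rfl, rfl⟩⟩
      rw [hφ]
      refine Finset.sum_le_sum fun c _ => ?_
      have h0 := cond_nonneg hp0 L z c
      refine mul_le_mul_of_nonneg_left ?_ h0
      by_cases hbad : Bd a b c
      · rw [if_pos hbad]
        split_ifs <;> norm_num
      · rw [if_neg hbad, if_neg]
        rw [hBd] at hbad
        simp only [not_not] at hbad ⊢
        exact interp hs hbad.1 hbad.2
    · refine ⟨(0, 0), fun _ => le_trans ?_ hab, Or.inl ⟨rfl, rfl⟩⟩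
      rw [hφ]
      refine Finset.sum_le_sum fun c _ => ?_
      have h0 := cond_nonneg hp0 L z c
      refine mul_le_mul_of_nonneg_left ?_ h0
      have hbad : Bd a b c := by
        rw [hBd]
        exact fun h => hsab h.1
      rw [if_pos hbad]
      split_ifs <;> norm_num
  choose e he2 he3 using hch
  refine ⟨fun z => (e z).1, fun z => (e z).2, le_trans ?_ h, he3⟩
  have h8 : Pb p (fun ω => ¬ (|f ω - (e (L ω)).1 - (e (L ω)).2 * τ ω| ≤ δ / s)) ≤
      ∑ z ∈ Finset.univ.image L, law p L z * m z := by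
    have e1 : Pb p (fun ω => ¬ (|f ω - (e (L ω)).1 - (e (L ω)).2 * τ ω| ≤ δ / s)) =
        ∑ ω, p ω * (if ¬ (|f ω - (e (L ω)).1 - (e (L ω)).2 * τ ω| ≤ δ / s) then 1 else 0) := by
      unfold Pb
      refine Finset.sum_congr rfl fun ω _ => ?_
      split_ifs <;> simp
    rw [e1, mix hp0 L]
    refine Finset.sum_le_sum fun z _ => ?_
    rcases eq_or_ne (law p L z) 0 with hz | hz
    · rw [hz, zero_mul, zero_mul]
    refine mul_le_mul_of_nonneg_left (le_trans (le_of_eq ?_) (he2 z hz))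
      (law_nonneg hp0 L z)
    refine Finset.sum_congr rfl fun c _ => ?_
    rcases (cond_nonneg hp0 L z c).eq_or_lt with hc | hc
    · rw [← hc, zero_mul, zero_mul]
    · have := ((cond_pos_iff hp0 L z c).1 hc).2
      rw [this]
  refine h8.trans (le_of_eq ?_)
  have e2 : Pb (tup p L 2) (fun v => ¬ (s ≤ |τ (v 0) - τ (v 1)| ∧
      |(f (v 2) - f (v 0)) * (τ (v 1) - τ (v 0)) - (f (v 1) - f (v 0)) * (τ (v 2) - τ (v 0))| ≤
        δ)) = ∑ v : Fin 3 → Ω, tup p L 2 v * (if Bd (v 0) (v 1) (v 2) then 1 else 0) := by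
    unfold Pb
    refine Finset.sum_congr rfl fun v _ => ?_
    rw [hBd]
    split_ifs <;> simp
  rw [e2]
  have e3 : ∀ v : Fin 3 → Ω, tup p L 2 v * (if Bd (v 0) (v 1) (v 2) then (1 : ℝ) else 0) =
      ∑ z ∈ Finset.univ.image L, law p L z * (cond p L z (v 0) * (cond p L z (v 1) *
        (cond p L z (v 2) * (if Bd (v 0) (v 1) (v 2) then 1 else 0)))) := by
    intro v
    rw [tup_mix hp0 L 2 v, Finset.sum_mul]
    refine Finset.sum_congr rfl fun z _ => ?_
    rw [Fin.prod_univ_three]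
    ring
  rw [Finset.sum_congr rfl fun v _ => e3 v, Finset.sum_comm]
  refine Finset.sum_congr rfl fun z _ => ?_
  rw [← Finset.mul_sum]
  congr 1
  rw [sum_three fun a b c => cond p L z a * (cond p L z b *
        (cond p L z c * (if Bd a b c then 1 else 0)))]
  rw [hm]
  refine Finset.sum_congr rfl fun a _ => Finset.sum_congr rfl fun b _ => ?_
  rw [hφ]
  simp only [Finset.mul_sum]

omit [Fintype Ω] in
/-- The bounds of the coefficients. -/
theorem aff_bd {p : Ω → ℝ} {L : Ω → Λ} {τ f : Ω → ℝ} {s B D : ℝ} (hs : 0 < s)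
    (hf : ∀ ω, 0 < p ω → |f ω| ≤ B) (hτ : ∀ ω, 0 < p ω → |τ ω| ≤ D) (hB : 0 ≤ B) (hD : 0 ≤ D)
    {e0 e1 : Λ → ℝ} {z : Λ}
    (h : (e0 z = 0 ∧ e1 z = 0) ∨ ∃ a b : Ω, L a = z ∧ L b = z ∧ 0 < p a ∧ 0 < p b ∧
        s ≤ |τ a - τ b| ∧ e1 z = (f b - f a) / (τ b - τ a) ∧ e0 z = f a - e1 z * τ a) :
    |e1 z| ≤ 2 * B / s ∧ |e0 z| ≤ B + 2 * B / s * D := by
  have h0 : 0 ≤ 2 * B / s := by positivity
  rcases h with ⟨h1, h2⟩ | ⟨a, b, _, _, ha, hb, hab, h1, h2⟩
  · rw [h1, h2, abs_zero]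
    exact ⟨h0, by positivity⟩
  · have e1' : |e1 z| ≤ 2 * B / s := by
      rw [h1, abs_div, abs_sub_comm (τ b)]
      refine div_le_div₀ (by positivity) ?_ hs hab
      calc |f b - f a| ≤ |f b| + |f a| := abs_sub _ _
        _ ≤ B + B := add_le_add (hf b hb) (hf a ha)
        _ = 2 * B := by ring
    refine ⟨e1', ?_⟩
    rw [h2]
    calc |f a - e1 z * τ a| ≤ |f a| + |e1 z * τ a| := abs_sub _ _
      _ = |f a| + |e1 z| * |τ a| := by rw [abs_mul]
      _ ≤ B + 2 * B / s * D := add_le_add (hf a ha)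
        (mul_le_mul e1' (hτ a ha) (abs_nonneg _) h0)

end Pool.FEK74
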