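import Pool.Agent.H74.FEK.Sel
import Pool.Agent.H74.FEK.Aff

/-!
# Covectors from samples which do not span

`cov_of_span`: `D` is a random vector. If `J + 1` samples of `D`, independent given `K`, together
with the vectors of `B₀`, contain only with probability `≤ ε` a basis of determinant `≥ δ ^ c`, then
there is a covector, a function of `K`, which is almost orthogonal to `D` except with probability
`ε' + 2 ε`. The number of samples is of the size `2 c / ε'`.
-/

set_option autoImplicit false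

namespace Pool.FEK74

open Finset Matrix
open Pool.Agent.H49.Ent Pool.Agent.H32.Dense Pool.STK Pool.SLO
open Pool.BFL (Pb)

/-- `s` vectors of `A` and `c - s` standard vectors with determinant `≥ δ ^ s`. -/
def Sp {c : ℕ} (δ : ℝ) (A : Set (Fin c → ℝ)) (s : ℕ) : Prop :=
  ∃ a : Fin c → Fin c → ℝ, (∀ j : Fin c, (j : ℕ) < s → a j ∈ A) ∧
    (∀ j : Fin c, s ≤ (j : ℕ) → ∃ i, a j = Pi.single i 1) ∧ δ ^ s ≤ |(Matrix.of a).det|

theorem Sp.mono {c : ℕ} {δ : ℝ} {A A' : Set (Fin c → ℝ)} {s : ℕ} (h : Sp δ A s) (hA : A ⊆ A') :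
    Sp δ A' s := by
  obtain ⟨a, h1, h2, h3⟩ := h
  exact ⟨a, fun j hj => hA (h1 j hj), h2, h3⟩

theorem Sp.zero {c : ℕ} (δ : ℝ) (A : Set (Fin c → ℝ)) : Sp δ A 0 := by
  refine ⟨fun j => Pi.single j 1, fun j hj => absurd hj (Nat.not_lt_zero _),
    fun j _ => ⟨j, rfl⟩, ?_⟩
  have h1 : (Matrix.of fun j : Fin c => (Pi.single j 1 : Fin c → ℝ)) = 1 := by
    ext i j
    rw [Matrix.of_apply, Matrix.one_apply, Pi.single_apply]
    simp only [eq_comm]
  rw [h1, Matrix.det_one]
  simp

/-- **One step**: a covector such that every vector which is seen by it can be added. -/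
theorem Sp.step {c : ℕ} {δ : ℝ} (hδ : 0 < δ) {A : Set (Fin c → ℝ)} {s : ℕ} (h : Sp δ A s)
    (hs : s < c) : ∃ n : Fin c → ℝ, 0 < ‖n‖ ∧
      ∀ b : Fin c → ℝ, δ * ‖n‖ ≤ |n ⬝ᵥ b| → Sp δ (insert b A) (s + 1) := by
  classical
  obtain ⟨a, ha, hst, hdet⟩ := h
  let f : (Fin c → Fin c) → ℝ := fun i =>
    |(Matrix.of fun j : Fin c => if (j : ℕ) < s then a j else Pi.single (i j) 1).det|
  have : Nonempty (Fin c → Fin c) := ⟨id⟩
  obtain ⟨i₀, hi₀⟩ := Finite.exists_max f
  choose! i₁ hi₁ using hst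
  have hf1 : δ ^ s ≤ f i₀ := by
    refine (hdet.trans (le_of_eq ?_)).trans (hi₀ i₁)
    show _ = |_|
    congr 3
    funext j
    split_ifs with h1
    · rfl
    · exact hi₁ j (not_lt.1 h1)
  let k : Fin c := ⟨s, hs⟩
  let v : Matrix (Fin c) (Fin c) ℝ :=
    Matrix.of fun j : Fin c => if (j : ℕ) < s then a j else Pi.single (i₀ j) 1
  have hvk : |(v.updateRow k (Pi.single (i₀ k) 1)).det| = f i₀ := by
    show _ = |v.det|
    congr 2
    ext j l
    rw [Matrix.updateRow_apply]
    simp only [v, Matrix.of_apply]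
    by_cases hj : j = k
    · subst hj
      rw [if_pos rfl, if_neg (lt_irrefl _ : ¬ ((k : ℕ) < s))]
    · rw [if_neg hj]
  have hn : f i₀ ≤ ‖fun i => (v.updateRow k (Pi.single i 1)).det‖ := by
    rw [← hvk, ← Real.norm_eq_abs]
    exact norm_le_pi_norm (fun i => (v.updateRow k (Pi.single i 1)).det) (i₀ k)
  have hpos : 0 < f i₀ := (pow_pos hδ s).trans_le hf1
  refine ⟨fun i => (v.updateRow k (Pi.single i 1)).det, hpos.trans_le hn, fun b hb' => ?_⟩
  rw [← det_row] at hb'
  refine ⟨fun j => if j = k then b else v j, fun j hj => ?_, fun j hj => ?_, ?_⟩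
  · show (if j = k then b else v j) ∈ insert b A
    split_ifs with h1
    · exact Set.mem_insert b A
    · have h2 : (j : ℕ) < s := by
        rcases Nat.lt_succ_iff_lt_or_eq.1 hj with h2 | h2
        · exact h2
        · exact absurd (Fin.ext h2) h1
      refine Set.mem_insert_of_mem b ?_
      show (if (j : ℕ) < s then a j else Pi.single (i₀ j) 1) ∈ A
      rw [if_pos h2]
      exact ha j h2
  · have h1 : j ≠ k := by
      rintro rfl
      exact absurd hj (by simp [k])
    refine ⟨i₀ j, ?_⟩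
    show (if j = k then b else if (j : ℕ) < s then a j else Pi.single (i₀ j) 1) = _
    rw [if_neg h1, if_neg (by omega)]
  · have e1 : (Matrix.of fun j : Fin c => if j = k then b else v j) = v.updateRow k b := by
      ext j l
      rw [Matrix.updateRow_apply, Matrix.of_apply]
      split_ifs <;> rfl
    rw [e1]
    calc δ ^ (s + 1) = δ * δ ^ s := by ring
      _ ≤ δ * ‖fun i => (v.updateRow k (Pi.single i 1)).det‖ :=
        mul_le_mul_of_nonneg_left (hf1.trans hn) hδ.le
      _ ≤ _ := hb'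

section prod

variable {W : Type} [Fintype W] {c : ℕ}

open Classical in
/-- The probability that `J` independent samples of `D` and `A` do not span. -/
noncomputable def Fl (μ : W → ℝ) (D : W → Fin c → ℝ) (δ : ℝ) (J : ℕ)
    (A : Set (Fin c → ℝ)) : ℝ :=
  ∑ v : Fin J → W, (∏ j, μ (v j)) * (if Sp δ (A ∪ Set.range fun j => D (v j)) c then 0 else 1)

variable {μ : W → ℝ} (D : W → Fin c → ℝ) {δ : ℝ}

theorem Fl_succ (J : ℕ) (A : Set (Fin c → ℝ)) :
    Fl μ D δ (J + 1) A = ∑ w, μ w * Fl μ D δ J (insert (D w) A) := by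
  classical
  unfold Fl
  rw [Fintype.sum_equiv (Fin.consEquiv fun _ : Fin (J + 1) => W).symm
    (fun v : Fin (J + 1) → W => (∏ j, μ (v j)) *
      (if Sp δ (A ∪ Set.range fun j => D (v j)) c then (0 : ℝ) else 1))
    (fun x : W × (Fin J → W) => (μ x.1 * ∏ j, μ (x.2 j)) *
      (if Sp δ (insert (D x.1) A ∪ Set.range fun j => D (x.2 j)) c then (0 : ℝ) else 1)) ?_,
    Fintype.sum_prod_type]
  · refine Finset.sum_congr rfl fun w _ => ?_
    rw [Finset.mul_sum]
    refine Finset.sum_congr rfl fun v _ => ?_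
    simp only
    ring
  · intro v
    have e1 : (A ∪ Set.range fun j => D (v j)) =
        insert (D (v 0)) A ∪ Set.range fun j : Fin J => D (v j.succ) := by
      ext x
      simp only [Set.mem_union, Set.mem_range, Set.mem_insert_iff]
      constructor
      · rintro (h | ⟨j, rfl⟩)
        · exact Or.inl (Or.inr h)
        · rcases Fin.eq_zero_or_eq_succ j with rfl | ⟨j, rfl⟩
          · exact Or.inl (Or.inl rfl)
          · exact Or.inr ⟨j, rfl⟩
      · rintro ((h | h) | ⟨j, rfl⟩)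
        · exact Or.inr ⟨0, h.symm⟩
        · exact Or.inl h
        · exact Or.inr ⟨j.succ, rfl⟩
    rw [e1, Fin.prod_univ_succ]
    rfl

theorem Fl_le_one (hμ : ∀ w, 0 ≤ μ w) (h1 : ∑ w, μ w = 1) (J : ℕ) (A : Set (Fin c → ℝ)) :
    Fl μ D δ J A ≤ 1 := by
  classical
  unfold Fl
  calc _ ≤ ∑ v : Fin J → W, ∏ j, μ (v j) := by
        refine Finset.sum_le_sum fun v _ => ?_
        have h2 : 0 ≤ ∏ j, μ (v j) := Finset.prod_nonneg fun j _ => hμ _
        split_ifs
        · rw [mul_zero]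
          exact h2
        · rw [mul_one]
    _ = 1 := by
        rw [sum_pi_prod fun _ => μ, h1]
        simp

theorem Fl_nonneg (hμ : ∀ w, 0 ≤ μ w) (J : ℕ) (A : Set (Fin c → ℝ)) : 0 ≤ Fl μ D δ J A := by
  classical
  unfold Fl
  refine Finset.sum_nonneg fun v _ => mul_nonneg (Finset.prod_nonneg fun j _ => hμ _) ?_
  split_ifs <;> norm_num

theorem Fl_full {J : ℕ} {A : Set (Fin c → ℝ)} (h : Sp δ A c) : Fl μ D δ J A = 0 := by
  classical
  unfold Fl
  refine Finset.sum_eq_zero fun v _ => ?_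
  rw [if_pos (h.mono Set.subset_union_left), mul_zero]

/-- **Greedy choice**: if every covector is seen with probability `≥ ε'`, the samples fail to span
with probability `≤ c / (ε' (J + 1))`. -/
theorem Fl_le (hμ : ∀ w, 0 ≤ μ w) (h1 : ∑ w, μ w = 1) (hδ : 0 < δ) {ε' : ℝ} (hε0 : 0 < ε')
    (hε1 : ε' ≤ 1) (B₀ : Set (Fin c → ℝ))
    (h : ∀ n : Fin c → ℝ, ‖n‖ = 1 → (∀ b ∈ B₀, |n ⬝ᵥ b| < δ) →
      ε' ≤ Pb μ (fun w => δ ≤ |n ⬝ᵥ D w|)) :
    ∀ (J s : ℕ), s ≤ c → ∀ A : Set (Fin c → ℝ), B₀ ⊆ A → Sp δ A s →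
      Fl μ D δ J A ≤ ((c : ℝ) - s) / (ε' * (J + 1)) := by
  classical
  intro J
  induction J with
  | zero =>
    intro s hs A _ hsp
    rcases hs.eq_or_lt with rfl | hs'
    · rw [Fl_full D hsp]
      simp
    · refine (Fl_le_one D hμ h1 0 A).trans ?_
      have h2 : (s : ℝ) + 1 ≤ c := by exact_mod_cast hs'
      rw [le_div_iff₀ (by positivity)]
      push_cast
      nlinarith
  | succ J ih =>
    intro s hs
    -- induction on `c - s`
    obtain ⟨r, hr⟩ : ∃ r, r = c - s := ⟨_, rfl⟩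
    induction r generalizing s with
    | zero =>
      intro A _ hsp
      have : s = c := by omega
      subst this
      rw [Fl_full D hsp]
      simp
    | succ r ihr =>
      intro A hBA hsp
      have hsc : s < c := by omega
      have hs1 : (s : ℝ) + 1 ≤ c := by exact_mod_cast hsc
      have hJ1 : (0 : ℝ) < ε' * ((J : ℝ) + 1) := by positivity
      have hJ2 : (0 : ℝ) < ε' * ((J : ℝ) + 1 + 1) := by positivity
      by_cases hnext : Sp δ A (s + 1)
      · have h2 := ihr (s + 1) hsc (by omega) A hBA hnext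
        refine h2.trans ?_
        push_cast
        exact div_le_div_of_nonneg_right (by linarith) hJ2.le
      obtain ⟨n, hn0, hn⟩ := hsp.step hδ hsc
      -- the covector is seen
      have hsee : ε' ≤ Pb μ (fun w => δ * ‖n‖ ≤ |n ⬝ᵥ D w|) := by
        have h2 := h (‖n‖⁻¹ • n) (by
          rw [norm_smul, norm_inv, norm_norm]
          exact inv_mul_cancel₀ hn0.ne') (fun b hb => by
          by_contra hcon
          rw [not_lt, smul_dotProduct, smul_eq_mul, abs_mul, abs_of_pos (inv_pos.2 hn0),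
            ← div_eq_inv_mul, le_div_iff₀ hn0] at hcon
          refine hnext ((hn b hcon).mono ?_)
          exact Set.insert_subset (hBA hb) le_rfl)
        refine h2.trans (le_of_eq ?_)
        unfold Pb
        refine Finset.sum_congr rfl fun w _ => ?_
        have h3 : (δ ≤ |(‖n‖⁻¹ • n) ⬝ᵥ D w|) ↔ (δ * ‖n‖ ≤ |n ⬝ᵥ D w|) := by
          rw [smul_dotProduct, smul_eq_mul, abs_mul, abs_of_pos (inv_pos.2 hn0),
            ← div_eq_inv_mul, le_div_iff₀ hn0]
        simp only [h3]
      have h4 : Fl μ D δ (J + 1) A ≤ ((c : ℝ) - s - ε') / (ε' * (J + 1)) := by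
        rw [Fl_succ]
        have h5 : ∀ w, μ w * Fl μ D δ J (insert (D w) A) ≤
            μ w * (((c : ℝ) - s) / (ε' * (J + 1))) -
              (if δ * ‖n‖ ≤ |n ⬝ᵥ D w| then μ w else 0) * (1 / (ε' * (J + 1))) := by
          intro w
          split_ifs with hw
          · have h6 := ih (s + 1) hsc (insert (D w) A) (hBA.trans (Set.subset_insert _ _))
              (hn (D w) hw)
            push_cast at h6
            calc μ w * Fl μ D δ J (insert (D w) A) ≤
                μ w * (((c : ℝ) - (s + 1)) / (ε' * (J + 1))) :=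
                  mul_le_mul_of_nonneg_left h6 (hμ w)
              _ = _ := by
                  field_simp
                  ring
          · rw [zero_mul, sub_zero]
            exact mul_le_mul_of_nonneg_left (ih s hs _ (hBA.trans (Set.subset_insert _ _))
              (hsp.mono (Set.subset_insert _ _))) (hμ w)
        refine (Finset.sum_le_sum fun w _ => h5 w).trans ?_
        rw [Finset.sum_sub_distrib, ← Finset.sum_mul, ← Finset.sum_mul, h1, one_mul]
        have h7 : ε' ≤ ∑ w, (if δ * ‖n‖ ≤ |n ⬝ᵥ D w| then μ w else 0) := hsee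
        have h8 : 0 ≤ 1 / (ε' * ((J : ℝ) + 1)) := by positivity
        have h9 := mul_le_mul_of_nonneg_right h7 h8
        calc _ ≤ ((c : ℝ) - s) / (ε' * (J + 1)) - ε' * (1 / (ε' * (J + 1))) := by linarith
          _ = _ := by ring
      push_cast
      by_cases hbig : (c : ℝ) - s ≤ ε' * ((J : ℝ) + 1 + 1)
      · refine h4.trans ?_
        rw [div_le_div_iff₀ hJ1 hJ2]
        nlinarith
      · refine (Fl_le_one D hμ h1 (J + 1) A).trans ?_
        rw [le_div_iff₀ hJ2]
        push Not at hbig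
        linarith

end prod

/-- **Covectors from samples which do not span.** -/
theorem cov_of_span {W Κ : Type} [Fintype W] {p : W → ℝ} (hp : IsLaw p) (K : W → Κ) {c : ℕ}
    (D : W → Fin c → ℝ) (B₀ : Set (Fin c → ℝ)) (δ ε' ε : ℝ) (J : ℕ) (hδ : 0 < δ) (hε0 : 0 < ε')
    (hε1 : ε' ≤ 1) (hJ : 2 * (c : ℝ) ≤ ε' * (J + 1)) (hε : ε < 1 / 2)
    (h : Pb (tup p K J) (fun v => ∃ a : Fin c → Fin c → ℝ,
      (∀ j, a j ∈ B₀ ∨ ∃ i, a j = D (v i)) ∧ δ ^ c ≤ |(Matrix.of a).det|) ≤ ε) :
    ∃ n : Κ → Fin c → ℝ, (∀ z, ‖n z‖ = 1 ∧ ∀ b ∈ B₀, |n z ⬝ᵥ b| < δ) ∧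
      Pb p (fun w => δ ≤ |n (K w) ⬝ᵥ D w|) ≤ ε' + 2 * ε := by
  classical
  have hp0 : ∀ ω, 0 ≤ p ω := hp.1
  -- the good values
  let Gd : Κ → (Fin c → ℝ) → Prop := fun z n => ‖n‖ = 1 ∧ (∀ b ∈ B₀, |n ⬝ᵥ b| < δ) ∧
    Pb (cond p K z) (fun w => δ ≤ |n ⬝ᵥ D w|) < ε'
  let bad : Κ → Prop := fun z => law p K z ≠ 0 ∧ ¬ ∃ n, Gd z n
  have hlaw : ∑ z ∈ Finset.univ.image K, law p K z = 1 := by
    have h1 := mix hp0 K (fun _ => (1 : ℝ))
    simp only [mul_one] at h1
    rw [hp.2] at h1
    rw [h1]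
    refine Finset.sum_congr rfl fun z hz => ?_
    rcases eq_or_ne (law p K z) 0 with h0 | h0
    · rw [h0, zero_mul]
    · rw [sum_cond p K h0, mul_one]
  -- the bad values have probability at most `2 ε`
  have hbad : ∑ z ∈ Finset.univ.image K, (if bad z then law p K z else 0) ≤ 2 * ε := by
    have e1 : Pb (tup p K J) (fun v => ∃ a : Fin c → Fin c → ℝ,
        (∀ j, a j ∈ B₀ ∨ ∃ i, a j = D (v i)) ∧ δ ^ c ≤ |(Matrix.of a).det|) =
        ∑ z ∈ Finset.univ.image K, law p K z * ∑ v : Fin (J + 1) → W,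
          (∏ j, cond p K z (v j)) *
            (if Sp δ (B₀ ∪ Set.range fun j => D (v j)) c then 1 else 0) := by
      unfold Pb
      have e2 : ∀ v : Fin (J + 1) → W, (if ∃ a : Fin c → Fin c → ℝ,
          (∀ j, a j ∈ B₀ ∨ ∃ i, a j = D (v i)) ∧ δ ^ c ≤ |(Matrix.of a).det|
            then tup p K J v else 0) =
          ∑ z ∈ Finset.univ.image K, law p K z * ((∏ j, cond p K z (v j)) *
            (if Sp δ (B₀ ∪ Set.range fun j => D (v j)) c then 1 else 0)) := by
        intro v
        have e3 : (∃ a : Fin c → Fin c → ℝ, (∀ j, a j ∈ B₀ ∨ ∃ i, a j = D (v i)) ∧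
            δ ^ c ≤ |(Matrix.of a).det|) ↔
            Sp δ (B₀ ∪ Set.range fun j => D (v j)) c := by
          constructor
          · rintro ⟨a, h1, h2⟩
            refine ⟨a, fun j _ => ?_, fun j hj => absurd hj (not_le.2 j.2), h2⟩
            rcases h1 j with h3 | ⟨i, h3⟩
            · exact Or.inl h3
            · exact Or.inr ⟨i, h3.symm⟩
          · rintro ⟨a, h1, _, h2⟩
            refine ⟨a, fun j => ?_, h2⟩
            rcases h1 j j.2 with h3 | ⟨i, h3⟩
            · exact Or.inl h3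
            · exact Or.inr ⟨i, h3.symm⟩
        simp only [e3]
        rw [tup_mix hp0 K J v]
        split_ifs
        · exact Finset.sum_congr rfl fun z _ => by rw [mul_one]
        · rw [Finset.sum_eq_zero fun z _ => by rw [mul_zero, mul_zero]]
      rw [Finset.sum_congr rfl fun v _ => e2 v, Finset.sum_comm]
      exact Finset.sum_congr rfl fun z _ => by rw [← Finset.mul_sum]
    have e4 : ∀ z, bad z → 1 / 2 ≤ ∑ v : Fin (J + 1) → W, (∏ j, cond p K z (v j)) *
        (if Sp δ (B₀ ∪ Set.range fun j => D (v j)) c then (1 : ℝ) else 0) := by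
      intro z hz
      have hc0 : ∀ w, 0 ≤ cond p K z w := cond_nonneg hp0 K z
      have hc1 := sum_cond p K hz.1
      have h2 := Fl_le (μ := cond p K z) D hc0 hc1 hδ hε0 hε1 B₀ (fun n h3 h4 => by
        by_contra hcon
        rw [not_le] at hcon
        exact hz.2 ⟨n, h3, h4, hcon⟩) (J + 1) 0 (Nat.zero_le c) B₀ le_rfl (Sp.zero δ B₀)
      have h3 : ((c : ℝ) - (0 : ℕ)) / (ε' * (((J + 1 : ℕ) : ℝ) + 1)) ≤ 1 / 2 := by
        push_cast
        rw [div_le_div_iff₀ (by positivity) (by norm_num)]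
        nlinarith
      have h4 : Fl (cond p K z) D δ (J + 1) B₀ + ∑ v : Fin (J + 1) → W,
          (∏ j, cond p K z (v j)) *
            (if Sp δ (B₀ ∪ Set.range fun j => D (v j)) c then (1 : ℝ) else 0) = 1 := by
        unfold Fl
        rw [← Finset.sum_add_distrib]
        have h5 : ∑ v : Fin (J + 1) → W, ∏ j, cond p K z (v j) = 1 := by
          rw [sum_pi_prod fun _ => cond p K z, hc1]
          simp
        refine (Finset.sum_congr rfl fun v _ => ?_).trans h5
        rw [← mul_add]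
        split_ifs <;> ring
      linarith
    have e5 : ∑ z ∈ Finset.univ.image K, (if bad z then law p K z else 0) * (1 / 2) ≤
        Pb (tup p K J) (fun v => ∃ a : Fin c → Fin c → ℝ,
        (∀ j, a j ∈ B₀ ∨ ∃ i, a j = D (v i)) ∧ δ ^ c ≤ |(Matrix.of a).det|) := by
      rw [e1]
      refine Finset.sum_le_sum fun z _ => ?_
      split_ifs with hz
      · exact mul_le_mul_of_nonneg_left (e4 z hz) (law_nonneg hp0 K z)
      · rw [zero_mul]
        refine mul_nonneg (law_nonneg hp0 K z) (Finset.sum_nonneg fun v _ => mul_nonneg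
          (Finset.prod_nonneg fun j _ => cond_nonneg hp0 K z _) ?_)
        split_ifs <;> norm_num
    rw [← Finset.sum_mul] at e5
    linarith
  -- a default covector
  obtain ⟨n₀, hn₀⟩ : ∃ n₀ : Fin c → ℝ, ‖n₀‖ = 1 ∧ ∀ b ∈ B₀, |n₀ ⬝ᵥ b| < δ := by
    by_contra hcon
    have h2 : ∑ z ∈ Finset.univ.image K, (if bad z then law p K z else 0) =
        ∑ z ∈ Finset.univ.image K, law p K z := by
      refine Finset.sum_congr rfl fun z _ => ?_
      rcases eq_or_ne (law p K z) 0 with h0 | h0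
      · split_ifs
        · rfl
        · exact h0.symm
      · rw [if_pos]
        refine ⟨h0, ?_⟩
        rintro ⟨n, h3, h4, _⟩
        exact hcon ⟨n, h3, h4⟩
    rw [h2, hlaw] at hbad
    linarith
  have hch : ∀ z, ∃ n : Fin c → ℝ, (‖n‖ = 1 ∧ ∀ b ∈ B₀, |n ⬝ᵥ b| < δ) ∧
      (¬ bad z → law p K z ≠ 0 → Pb (cond p K z) (fun w => δ ≤ |n ⬝ᵥ D w|) ≤ ε') := by
    intro z
    by_cases hz : ∃ n, Gd z n
    · obtain ⟨n, h2, h3, h4⟩ := hz
      exact ⟨n, ⟨h2, h3⟩, fun _ _ => h4.le⟩
    · exact ⟨n₀, hn₀, fun hb h0 => absurd ⟨h0, hz⟩ hb⟩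
  choose n hn1 hn2 using hch
  refine ⟨n, hn1, ?_⟩
  have e1 : Pb p (fun w => δ ≤ |n (K w) ⬝ᵥ D w|) =
      ∑ w, p w * (if δ ≤ |n (K w) ⬝ᵥ D w| then 1 else 0) := by
    unfold Pb
    refine Finset.sum_congr rfl fun w _ => ?_
    split_ifs <;> simp
  rw [e1, mix hp0 K]
  have e2 : ∀ z ∈ Finset.univ.image K, law p K z *
      ∑ w, cond p K z w * (if δ ≤ |n (K w) ⬝ᵥ D w| then 1 else 0) ≤
      law p K z * ε' + (if bad z then law p K z else 0) := by
    intro z _
    have hl := law_nonneg hp0 K z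
    rcases eq_or_ne (law p K z) 0 with h0 | h0
    · have h2 : (if bad z then law p K z else 0) = 0 := by
        split_ifs
        · exact h0
        · rfl
      rw [h2, h0, zero_mul, zero_mul, add_zero]
    have e3 : ∑ w, cond p K z w * (if δ ≤ |n (K w) ⬝ᵥ D w| then (1 : ℝ) else 0) =
        Pb (cond p K z) (fun w => δ ≤ |n z ⬝ᵥ D w|) := by
      unfold Pb
      refine Finset.sum_congr rfl fun w _ => ?_
      rcases (cond_nonneg hp0 K z w).eq_or_lt with hc | hc
      · rw [← hc]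
        simp
      · have := ((cond_pos_iff hp0 K z w).1 hc).2
        rw [this]
        split_ifs <;> simp
    rw [e3]
    by_cases hb : bad z
    · rw [if_pos hb]
      have h2 : Pb (cond p K z) (fun w => δ ≤ |n z ⬝ᵥ D w|) ≤ 1 := by
        unfold Pb
        rw [← sum_cond p K h0]
        refine Finset.sum_le_sum fun w _ => ?_
        split_ifs
        · exact le_rfl
        · exact cond_nonneg hp0 K z w
      have h3 := mul_le_mul_of_nonneg_left h2 hl
      have h4 : 0 ≤ law p K z * ε' := mul_nonneg hl hε0.le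
      linarith
    · rw [if_neg hb, add_zero]
      exact mul_le_mul_of_nonneg_left (hn2 z hb h0) hl
  refine (Finset.sum_le_sum e2).trans ?_
  rw [Finset.sum_add_distrib, ← Finset.sum_mul, hlaw, one_mul]
  linarith

end Pool.FEK74
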