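import Mathlib

/-!
# Selection of a basis of large determinant

If every covector `n` sees some vector of `A` with `|n · a| ≥ α ‖n‖` (sup norm), then `A` contains
`c` vectors with `|det| ≥ α ^ c`. In particular, of any family of sets which together see all
covectors, at most `c` members are needed.
-/

set_option autoImplicit false

namespace Pool.FEK74

open Matrix

/-- The determinant with a replaced row is linear in this row. -/
theorem det_row {c : ℕ} (v : Matrix (Fin c) (Fin c) ℝ) (k : Fin c) (x : Fin c → ℝ) :
    (v.updateRow k x).det = (fun i => (v.updateRow k (Pi.single i 1)).det) ⬝ᵥ x := by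
  classical
  have h1 : ∀ b : Fin c → ℝ, (v.updateRow k b).det = (cramer vᵀ b) k := fun b =>
    (cramer_transpose_apply v b k).symm
  have h2 : x = ∑ i, x i • (Pi.single i 1 : Fin c → ℝ) := by
    funext j
    rw [Finset.sum_apply]
    simp [Pi.single_apply]
  rw [h1]
  conv_lhs => rw [h2]
  rw [map_sum, Finset.sum_apply]
  unfold dotProduct
  refine Finset.sum_congr rfl fun i _ => ?_
  show _ = (v.updateRow k (Pi.single i 1)).det * x i
  rw [map_smul, Pi.smul_apply, smul_eq_mul, h1, mul_comm]

/-- **Selection**: `c` vectors of `A` with determinant at least `α ^ c`. -/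
theorem pick {c : ℕ} (A : Set (Fin c → ℝ)) (α : ℝ) (hα : 0 ≤ α)
    (h : ∀ n : Fin c → ℝ, ∃ a ∈ A, α * ‖n‖ ≤ |n ⬝ᵥ a|) :
    ∃ a : Fin c → Fin c → ℝ, (∀ j, a j ∈ A) ∧ α ^ c ≤ |(Matrix.of a).det| := by
  classical
  -- the first `s` rows are in `A`, the others are standard vectors
  have key : ∀ s ≤ c, ∃ (a : Fin c → Fin c → ℝ), (∀ j : Fin c, (j : ℕ) < s → a j ∈ A) ∧
      (∀ j : Fin c, s ≤ (j : ℕ) → ∃ i, a j = Pi.single i 1) ∧
      α ^ s ≤ |(Matrix.of a).det| := by
    intro s
    induction s with
    | zero =>
      intro _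
      refine ⟨fun j => Pi.single j 1, fun j hj => absurd hj (Nat.not_lt_zero _),
        fun j _ => ⟨j, rfl⟩, ?_⟩
      have h1 : (Matrix.of fun j : Fin c => (Pi.single j 1 : Fin c → ℝ)) = 1 := by
        ext i j
        rw [Matrix.of_apply, Matrix.one_apply, Pi.single_apply]
        simp only [eq_comm]
      rw [h1, Matrix.det_one]
      simp
    | succ s ih =>
      intro hs
      obtain ⟨a, ha, hst, hdet⟩ := ih (by omega)
      -- maximise over the standard vectors
      let f : (Fin c → Fin c) → ℝ := fun i =>
        |(Matrix.of fun j : Fin c => if (j : ℕ) < s then a j else Pi.single (i j) 1).det|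
      have : Nonempty (Fin c → Fin c) := ⟨id⟩
      obtain ⟨i₀, hi₀⟩ := Finite.exists_max f
      choose! i₁ hi₁ using hst
      have hf1 : α ^ s ≤ f i₀ := by
        refine (hdet.trans (le_of_eq ?_)).trans (hi₀ i₁)
        show _ = |_|
        congr 3
        funext j
        split_ifs with h1
        · rfl
        · exact hi₁ j (not_lt.1 h1)
      let k : Fin c := ⟨s, hs⟩
      let v : Matrix (Fin c) (Fin c) ℝ :=
        Matrix.of fun j : Fin c => if (j : ℕ) < s then a j else Pi.single (i₀ j) 1
      have hv : ∀ i : Fin c, |(v.updateRow k (Pi.single i 1)).det| ≤ f i₀ := by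
        intro i
        refine le_trans (le_of_eq ?_) (hi₀ (Function.update i₀ k i))
        show _ = |_|
        congr 2
        ext j l
        rw [Matrix.updateRow_apply]
        simp only [v, Matrix.of_apply]
        by_cases hj : j = k
        · subst hj
          rw [if_pos rfl, if_neg (lt_irrefl _ : ¬ ((k : ℕ) < s)), Function.update_self]
        · rw [if_neg hj, Function.update_of_ne hj]
      have hvk : |(v.updateRow k (Pi.single (i₀ k) 1)).det| = f i₀ := by
        show _ = |v.det|
        congr 2
        ext j l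
        rw [Matrix.updateRow_apply]
        simp only [v, Matrix.of_apply]
        by_cases hj : j = k
        · subst hj
          rw [if_pos rfl, if_neg (lt_irrefl _ : ¬ ((k : ℕ) < s))]
        · rw [if_neg hj]
      obtain ⟨b, hb, hb'⟩ := h fun i => (v.updateRow k (Pi.single i 1)).det
      rw [← det_row] at hb'
      have hn : f i₀ ≤ ‖fun i => (v.updateRow k (Pi.single i 1)).det‖ := by
        rw [← hvk, ← Real.norm_eq_abs]
        exact norm_le_pi_norm (fun i => (v.updateRow k (Pi.single i 1)).det) (i₀ k)
      refine ⟨fun j => if j = k then b else v j, fun j hj => ?_, fun j hj => ?_, ?_⟩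
      · show (if j = k then b else v j) ∈ A
        split_ifs with h1
        · exact hb
        · have h2 : (j : ℕ) < s := by
            rcases Nat.lt_succ_iff_lt_or_eq.1 hj with h2 | h2
            · exact h2
            · exact absurd (Fin.ext h2) h1
          show (if (j : ℕ) < s then a j else Pi.single (i₀ j) 1) ∈ A
          rw [if_pos h2]
          exact ha j h2
      · have h1 : j ≠ k := by
          rintro rfl
          exact absurd hj (by simp [k])
        refine ⟨i₀ j, ?_⟩
        show (if j = k then b else if (j : ℕ) < s then a j else Pi.single (i₀ j) 1) = _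
        rw [if_neg h1, if_neg (by omega)]
      · have e1 : (Matrix.of fun j : Fin c => if j = k then b else v j) = v.updateRow k b := by
          ext j l
          rw [Matrix.updateRow_apply, Matrix.of_apply]
          split_ifs <;> rfl
        rw [e1]
        calc α ^ (s + 1) = α * α ^ s := by ring
          _ ≤ α * ‖fun i => (v.updateRow k (Pi.single i 1)).det‖ :=
            mul_le_mul_of_nonneg_left (hf1.trans hn) hα
          _ ≤ _ := hb'
  obtain ⟨a, ha, _, hdet⟩ := key c le_rfl
  exact ⟨a, fun j => ha j j.2, hdet⟩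

/-- **Selection from a family** of sets: at most `c` members of the family are used. -/
theorem pick_fam {c : ℕ} {ι : Type*} (A : ι → Set (Fin c → ℝ)) (α : ℝ) (hα : 0 ≤ α)
    (h : ∀ n : Fin c → ℝ, ∃ i, ∃ a ∈ A i, α * ‖n‖ ≤ |n ⬝ᵥ a|) :
    ∃ (i : Fin c → ι) (a : Fin c → Fin c → ℝ), (∀ j, a j ∈ A (i j)) ∧
      α ^ c ≤ |(Matrix.of a).det| := by
  obtain ⟨a, ha, hdet⟩ := pick (⋃ i, A i) α hα fun n => by
    obtain ⟨i, a, ha, h1⟩ := h n
    exact ⟨a, Set.mem_iUnion.2 ⟨i, ha⟩, h1⟩
  choose i hi using fun j => Set.mem_iUnion.1 (ha j)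
  exact ⟨i, a, hi, hdet⟩

end Pool.FEK74
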